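import Pool.Agent.helper74.VD.SpecA3

/-!
# Project VD (MP_07c750_an), row AFDD: evolution of synthesised beams

Differentiation under the integral over the window of phase space; locally finite sums over the charts.
-/

set_option autoImplicit false

open scoped ContDiff Topology InnerProductSpace ComplexConjugate ENNReal
open MeasureTheory Filter Set

namespace Pool.Agent.VD

open Pool.Agent.VQ (CH)

noncomputable section

/-! ## Integrals depending on parameters -/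

section param

variable {d : ℕ} {μ : Measure (P d)} {K : Set (P d)}

/-- a locally uniform bound -/
theorem AFDD_bd {Q E : Type} [TopologicalSpace Q] [NormedAddCommGroup E] {f : Q → P d → E}
    (hf : Continuous fun x : Q × P d => f x.1 x.2) (hK : IsCompact K) (p0 : Q) :
    ∃ N ∈ 𝓝 p0, ∃ C : ℝ, 0 ≤ C ∧ ∀ p ∈ N, ∀ q ∈ K, ‖f p q‖ ≤ C := by
  have hc0 : Continuous fun q => f p0 q := hf.comp (Continuous.prodMk_right p0)
  obtain ⟨C, hC⟩ := hK.exists_bound_of_continuousOn hc0.continuousOn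
  have h2 : ∀ᶠ p in 𝓝 p0, ∀ q ∈ K, ‖f p q‖ < |C| + 1 := by
    refine hK.eventually_forall_of_forall_eventually fun q hq => ?_
    have h3 : ContinuousAt (fun x : Q × P d => ‖f x.1 x.2‖) (p0, q) := hf.norm.continuousAt
    have h4 : ‖f p0 q‖ < |C| + 1 := by
      have := hC q hq
      have := le_abs_self C
      linarith
    exact h3.eventually_lt_const h4
  exact ⟨{p | ∀ q ∈ K, ‖f p q‖ < |C| + 1}, h2, |C| + 1, by positivity, fun p hp q hq => (hp q hq).le⟩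

theorem AFDD_aesm {Q E : Type} [TopologicalSpace Q] [NormedAddCommGroup E] [NormedSpace ℂ E]
    {f : Q → P d → E} (hf : Continuous fun x : Q × P d => f x.1 x.2) {v : P d → ℂ}
    (hv : Measurable v) (p : Q) : AEStronglyMeasurable (fun q => v q • f p q) μ := by
  have hc0 : Continuous fun q => f p q := hf.comp (Continuous.prodMk_right p)
  exact hv.aestronglyMeasurable.smul hc0.aestronglyMeasurable

theorem AFDD_int {Q E : Type} [TopologicalSpace Q] [NormedAddCommGroup E] [NormedSpace ℂ E]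
    [IsFiniteMeasure μ] (hK : IsCompact K) (hμ : ∀ᵐ q ∂μ, q ∈ K)
    {f : Q → P d → E} (hf : Continuous fun x : Q × P d => f x.1 x.2) {v : P d → ℂ}
    (hv : Measurable v) {b : ℝ} (hb : ∀ q, ‖v q‖ ≤ b) (p : Q) :
    Integrable (fun q => v q • f p q) μ := by
  obtain ⟨N, hN, C, hC, h1⟩ := AFDD_bd hf hK p
  refine (integrable_const (b * C)).mono' (AFDD_aesm hf hv p) ?_
  filter_upwards [hμ] with q hq
  have hb0 : 0 ≤ b := (norm_nonneg _).trans (hb q)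
  rw [norm_smul]
  exact mul_le_mul (hb q) (h1 p (mem_of_mem_nhds hN) q hq) (norm_nonneg _) hb0

/-- continuity of the integral -/
theorem AFDD_cont {Q E : Type} [TopologicalSpace Q] [FirstCountableTopology Q] [NormedAddCommGroup E]
    [NormedSpace ℂ E] [NormedSpace ℝ E] [IsFiniteMeasure μ] (hK : IsCompact K)
    (hμ : ∀ᵐ q ∂μ, q ∈ K) {f : Q → P d → E} (hf : Continuous fun x : Q × P d => f x.1 x.2)
    {v : P d → ℂ} (hv : Measurable v) {b : ℝ} (hb : ∀ q, ‖v q‖ ≤ b) :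
    Continuous fun p => ∫ q, v q • f p q ∂μ := by
  rw [continuous_iff_continuousAt]
  intro p0
  obtain ⟨N, hN, C, hC, h1⟩ := AFDD_bd hf hK p0
  refine continuousAt_of_dominated (bound := fun _ => b * C) ?_ ?_ (integrable_const (b * C)) ?_
  · exact Eventually.of_forall fun p => AFDD_aesm hf hv p
  · filter_upwards [hN] with p hp
    filter_upwards [hμ] with q hq
    have hb0 : 0 ≤ b := (norm_nonneg _).trans (hb q)
    rw [norm_smul]
    exact mul_le_mul (hb q) (h1 p hp q hq) (norm_nonneg _) hb0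
  · refine Eventually.of_forall fun q => ?_
    have h4 : Continuous fun p => f p q := hf.comp (Continuous.prodMk_left q)
    exact h4.continuousAt.const_smul (v q)

/-- differentiation under the integral -/
theorem AFDD_fderiv {H E : Type} [NormedAddCommGroup H] [NormedSpace ℝ H] [NormedAddCommGroup E]
    [NormedSpace ℂ E] [NormedSpace ℝ E] [SMulCommClass ℝ ℂ E] [IsFiniteMeasure μ] (hK : IsCompact K)
    (hμ : ∀ᵐ q ∂μ, q ∈ K) {f : H → P d → E} {f' : H → P d → (H →L[ℝ] E)}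
    (hf : Continuous fun x : H × P d => f x.1 x.2) (hf' : Continuous fun x : H × P d => f' x.1 x.2)
    (hd : ∀ p q, HasFDerivAt (fun p => f p q) (f' p q) p)
    {v : P d → ℂ} (hv : Measurable v) {b : ℝ} (hb : ∀ q, ‖v q‖ ≤ b) (p0 : H) :
    HasFDerivAt (fun p => ∫ q, v q • f p q ∂μ) (∫ q, v q • f' p0 q ∂μ) p0 := by
  obtain ⟨N, hN, C, hC, h1⟩ := AFDD_bd hf' hK p0
  refine hasFDerivAt_integral_of_dominated_of_fderiv_le (𝕜 := ℝ) (s := N)
    (F := fun p q => v q • f p q) (F' := fun p q => v q • f' p q) (x₀ := p0)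
    (bound := fun _ => b * C) hN ?_ ?_ ?_ ?_ (integrable_const (b * C)) ?_
  · exact Eventually.of_forall fun p => AFDD_aesm hf hv p
  · exact AFDD_int hK hμ hf hv hb p0
  · exact AFDD_aesm hf' hv p0
  · filter_upwards [hμ] with q hq p hp
    have hb0 : 0 ≤ b := (norm_nonneg _).trans (hb q)
    rw [norm_smul]
    exact mul_le_mul (hb q) (h1 p hp q hq) (norm_nonneg _) hb0
  · exact Eventually.of_forall fun q p _ => (hd p q).const_smul (v q)

/-- differentiation under the integral, one real variable -/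
theorem AFDD_deriv {E : Type} [NormedAddCommGroup E]
    [NormedSpace ℂ E] [NormedSpace ℝ E] [SMulCommClass ℝ ℂ E] [IsFiniteMeasure μ] (hK : IsCompact K)
    (hμ : ∀ᵐ q ∂μ, q ∈ K) {f f' : ℝ → P d → E}
    (hf : Continuous fun x : ℝ × P d => f x.1 x.2) (hf' : Continuous fun x : ℝ × P d => f' x.1 x.2)
    (hd : ∀ p q, HasDerivAt (fun p => f p q) (f' p q) p)
    {v : P d → ℂ} (hv : Measurable v) {b : ℝ} (hb : ∀ q, ‖v q‖ ≤ b) (p0 : ℝ) :
    HasDerivAt (fun p => ∫ q, v q • f p q ∂μ) (∫ q, v q • f' p0 q ∂μ) p0 := by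
  obtain ⟨N, hN, C, hC, h1⟩ := AFDD_bd hf' hK p0
  refine (hasDerivAt_integral_of_dominated_loc_of_deriv_le (𝕜 := ℝ) (s := N)
    (F := fun p q => v q • f p q) (F' := fun p q => v q • f' p q) (x₀ := p0)
    (bound := fun _ => b * C) hN ?_ ?_ ?_ ?_ (integrable_const (b * C)) ?_).2
  · exact Eventually.of_forall fun p => AFDD_aesm hf hv p
  · exact AFDD_int hK hμ hf hv hb p0
  · exact AFDD_aesm hf' hv p0
  · filter_upwards [hμ] with q hq p hp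
    have hb0 : 0 ≤ b := (norm_nonneg _).trans (hb q)
    rw [norm_smul]
    exact mul_le_mul (hb q) (h1 p hp q hq) (norm_nonneg _) hb0
  · exact Eventually.of_forall fun q p _ => (hd p q).const_smul (v q)

end param

/-! ## The Laplace operator -/

section lapl

variable {d : ℕ}

/-- the inverse of a metric is smooth -/
theorem AFDD_inv {G : V d → V d →L[ℝ] V d} (hG : IsMetric G) : ContDiff ℝ ∞ fun y => (G y).inverse := by
  rw [contDiff_iff_contDiffAt]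
  intro x
  have hinj : Function.Injective (G x) := by
    rw [injective_iff_map_eq_zero]
    intro u hu
    by_contra hne
    have := hG.pos x u hne
    rw [hu, inner_zero_left] at this
    exact lt_irrefl _ this
  have hbij : Function.Bijective (G x) := by
    refine ⟨hinj, ?_⟩
    exact (LinearMap.injective_iff_surjective (f := (G x : V d →ₗ[ℝ] V d))).1 hinj
  set e : V d ≃L[ℝ] V d := (LinearEquiv.ofBijective (G x : V d →ₗ[ℝ] V d) hbij).toContinuousLinearEquiv with he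
  have hex : G x = (e : V d →L[ℝ] V d) := by
    ext u
    rfl
  have h1 : ContDiffAt ℝ ∞ (ContinuousLinearMap.inverse : (V d →L[ℝ] V d) → (V d →L[ℝ] V d)) (G x) := by
    rw [hex]
    exact contDiffAt_map_inverse e
  exact h1.comp x hG.smooth.contDiffAt

/-- the Laplace operator as a linear form of the derivatives -/
def AFDD_L (G : V d → V d →L[ℝ] V d) (x : V d) :
    ((V d →L[ℝ] ℂ) × (V d →L[ℝ] V d →L[ℝ] ℂ)) →L[ℝ] ℂ :=
  ∑ i : Fin d, (((dens G x)⁻¹ * fderiv ℝ (dens G) x (EuclideanSpace.single i 1)) •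
      ((ContinuousLinearMap.apply ℝ ℂ ((G x).inverse (EuclideanSpace.single i 1))).comp
        (ContinuousLinearMap.fst ℝ (V d →L[ℝ] ℂ) (V d →L[ℝ] V d →L[ℝ] ℂ))) +
    (((ContinuousLinearMap.apply ℝ ℂ ((G x).inverse (EuclideanSpace.single i 1))).comp
        (ContinuousLinearMap.apply ℝ (V d →L[ℝ] ℂ) (EuclideanSpace.single i 1))).comp
        (ContinuousLinearMap.snd ℝ (V d →L[ℝ] ℂ) (V d →L[ℝ] V d →L[ℝ] ℂ)) +
      (ContinuousLinearMap.apply ℝ ℂ (fderiv ℝ (fun y => (G y).inverse (EuclideanSpace.single i 1)) x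
          (EuclideanSpace.single i 1))).comp
        (ContinuousLinearMap.fst ℝ (V d →L[ℝ] ℂ) (V d →L[ℝ] V d →L[ℝ] ℂ))))

theorem AFDD_L_apply (G : V d → V d →L[ℝ] V d) (x : V d) (a : V d →L[ℝ] ℂ) (c : V d →L[ℝ] V d →L[ℝ] ℂ) :
    AFDD_L G x (a, c) = ∑ i : Fin d, ((((dens G x)⁻¹ * fderiv ℝ (dens G) x (EuclideanSpace.single i 1) : ℝ) : ℂ) *
      a ((G x).inverse (EuclideanSpace.single i 1)) +
      (c (EuclideanSpace.single i 1) ((G x).inverse (EuclideanSpace.single i 1)) +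
        a (fderiv ℝ (fun y => (G y).inverse (EuclideanSpace.single i 1)) x (EuclideanSpace.single i 1)))) := by
  unfold AFDD_L
  rw [_root_.sum_apply]
  refine Finset.sum_congr rfl fun i _ => ?_
  simp only [_root_.add_apply, _root_.smul_apply, ContinuousLinearMap.comp_apply,
    ContinuousLinearMap.coe_fst', ContinuousLinearMap.coe_snd', ContinuousLinearMap.apply_apply, Complex.real_smul]

theorem AFDD_L_smul (G : V d → V d →L[ℝ] V d) (x : V d) (a : V d →L[ℝ] ℂ) (c : V d →L[ℝ] V d →L[ℝ] ℂ) (w : ℂ) :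
    AFDD_L G x (w • a, w • c) = w * AFDD_L G x (a, c) := by
  rw [AFDD_L_apply, AFDD_L_apply, Finset.mul_sum]
  refine Finset.sum_congr rfl fun i _ => ?_
  simp only [_root_.smul_apply, smul_eq_mul]
  ring

theorem AFDD_lap {G : V d → V d →L[ℝ] V d} (hG : IsMetric G) (hd : ContDiff ℝ ∞ (dens G))
    (hp : ∀ x, 0 < dens G x) {φ : V d → ℂ} {x : V d} (hφ : ContDiffAt ℝ 2 φ x) :
    lap G φ x = AFDD_L G x (fderiv ℝ φ x, fderiv ℝ (fderiv ℝ φ) x) := by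
  have hi := AFDD_inv hG
  rw [AFDD_L_apply, lap, Finset.mul_sum]
  refine Finset.sum_congr rfl fun i _ => ?_
  set e : V d := EuclideanSpace.single i 1 with he
  have h1 : HasFDerivAt (fun y => ((dens G y : ℝ) : ℂ)) (Complex.ofRealCLM.comp (fderiv ℝ (dens G) x)) x :=
    Complex.ofRealCLM.hasFDerivAt.comp x ((hd.differentiable (by simp)) x).hasFDerivAt
  have h2 : HasFDerivAt (fderiv ℝ φ) (fderiv ℝ (fderiv ℝ φ) x) x := by
    have h3 : ContDiffAt ℝ 1 (fderiv ℝ φ) x := hφ.fderiv_right (by norm_num)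
    exact (h3.differentiableAt (by norm_num)).hasFDerivAt
  have h4 : HasFDerivAt (fun y => (G y).inverse e) (fderiv ℝ (fun y => (G y).inverse e) x) x := by
    have h5 : ContDiff ℝ ∞ fun y => (G y).inverse e := hi.clm_apply contDiff_const
    exact ((h5.differentiable (by simp)) x).hasFDerivAt
  have h6 := h1.mul (h2.clm_apply h4)
  have h7 : fderiv ℝ (fun y => ((dens G y : ℝ) : ℂ) * fderiv ℝ φ y ((G y).inverse e)) x = _ := h6.fderiv
  rw [h7]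
  have hne : ((dens G x : ℝ) : ℂ) ≠ 0 := Complex.ofReal_ne_zero.2 (hp x).ne'
  simp only [_root_.add_apply, _root_.smul_apply, ContinuousLinearMap.comp_apply,
    ContinuousLinearMap.flip_apply, smul_eq_mul, Complex.ofRealCLM_apply]
  push_cast
  field_simp
  ring

/-- the Laplace operator is local -/
theorem AFDD_lap_congr {G : V d → V d →L[ℝ] V d} (hG : IsMetric G) (hd : ContDiff ℝ ∞ (dens G))
    (hp : ∀ x, 0 < dens G x) {φ ψ : V d → ℂ} {x : V d} (hφ : ContDiffAt ℝ 2 φ x) (h : φ =ᶠ[𝓝 x] ψ) :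
    lap G φ x = lap G ψ x := by
  rw [AFDD_lap hG hd hp hφ, AFDD_lap hG hd hp (hφ.congr_of_eventuallyEq h.symm), h.fderiv_eq, h.fderiv.fderiv_eq]

theorem AFDD_lap_add {G : V d → V d →L[ℝ] V d} (hG : IsMetric G) (hd : ContDiff ℝ ∞ (dens G))
    (hp : ∀ x, 0 < dens G x) {φ ψ : V d → ℂ} (hφ : ContDiff ℝ 2 φ) (hψ : ContDiff ℝ 2 ψ) (x : V d) :
    lap G (fun y => φ y + ψ y) x = lap G φ x + lap G ψ x := by
  have h1 : fderiv ℝ (fun y => φ y + ψ y) = fun y => fderiv ℝ φ y + fderiv ℝ ψ y := by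
    funext y
    exact fderiv_add (hφ.differentiable (by norm_num) y) (hψ.differentiable (by norm_num) y)
  have h2 : fderiv ℝ (fun y => fderiv ℝ φ y + fderiv ℝ ψ y) x = fderiv ℝ (fderiv ℝ φ) x + fderiv ℝ (fderiv ℝ ψ) x := by
    have h3 : ContDiff ℝ 1 (fderiv ℝ φ) := hφ.fderiv_right (by norm_num)
    have h4 : ContDiff ℝ 1 (fderiv ℝ ψ) := hψ.fderiv_right (by norm_num)
    exact fderiv_add (h3.differentiable (by norm_num) x) (h4.differentiable (by norm_num) x)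
  rw [AFDD_lap hG hd hp hφ.contDiffAt, AFDD_lap hG hd hp hψ.contDiffAt, AFDD_lap hG hd hp (hφ.add hψ).contDiffAt, h1, h2,
    ← map_add, Prod.mk_add_mk]

theorem AFDD_lap_sum {G : V d → V d →L[ℝ] V d} (hG : IsMetric G) (hd : ContDiff ℝ ∞ (dens G))
    (hp : ∀ x, 0 < dens G x) {ι : Type} (A : Finset ι) {φ : ι → V d → ℂ} (hφ : ∀ i, ContDiff ℝ 2 (φ i)) (x : V d) :
    lap G (fun y => ∑ i ∈ A, φ i y) x = ∑ i ∈ A, lap G (φ i) x := by
  classical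
  induction A using Finset.induction_on with
  | empty =>
    have h0 : (fun y : V d => ∑ i ∈ (∅ : Finset ι), φ i y) = fun _ => (0 : ℂ) := by
      funext y
      simp
    have h1 : fderiv ℝ (fun _ : V d => (0 : ℂ)) = fun _ => 0 := by
      funext y
      exact fderiv_const_apply (0 : ℂ)
    have h2 : fderiv ℝ (fun _ : V d => (0 : V d →L[ℝ] ℂ)) x = 0 := fderiv_const_apply (0 : V d →L[ℝ] ℂ)
    rw [h0, AFDD_lap hG hd hp contDiffAt_const, h1, h2, Finset.sum_empty]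
    exact map_zero _
  | insert a s ha ih =>
    have h0 : (fun y : V d => ∑ i ∈ insert a s, φ i y) = fun y => φ a y + ∑ i ∈ s, φ i y := by
      funext y
      rw [Finset.sum_insert ha]
    have h1 : ContDiff ℝ 2 fun y => ∑ i ∈ s, φ i y := ContDiff.sum fun i _ => hφ i
    rw [h0, AFDD_lap_add hG hd hp (hφ a) h1, ih, Finset.sum_insert ha]

end lapl


/-! ## The window and the sum over the charts -/

section win

variable {d : ℕ} {Γ : Type}

/-- the window in phase space -/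
def AFDD_W (G : V d → V d →L[ℝ] V d) (r0 R : ℝ) : Set (P d) := {p | ‖p.1‖ ≤ r0 ∧ |Ep G p| ≤ 2 * R ^ (-(1 / 4) : ℝ)}

/-- the point `p` in the chart `γ` -/
def AFDD_m (γ : Γ) (p : P d) : YS Γ d := (γ, p)

theorem AFDD_emb (γ : Γ) : MeasurableEmbedding (AFDD_m (d := d) γ) := by
  let mΓ : MeasurableSpace Γ := ⊤
  refine ⟨fun p q h => (Prod.ext_iff.1 h).2, ?_, ?_⟩
  · exact (measurable_const.prodMk measurable_id : Measurable fun p : P d => ((γ, p) : Γ × P d))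
  · intro S hS
    have h1 : (fun p : P d => ((γ, p) : Γ × P d)) '' S = {γ} ×ˢ S := by
      ext ⟨a, b⟩
      constructor
      · rintro ⟨p, hp, h⟩
        obtain ⟨h2, h3⟩ := Prod.ext_iff.1 h
        exact ⟨h2.symm, by rw [← h3]; exact hp⟩
      · rintro ⟨h2, h3⟩
        exact ⟨b, h3, Prod.ext (by rw [mem_singleton_iff.1 h2]) rfl⟩
    have h2 : MeasurableSet (({γ} : Set Γ) ×ˢ S) := (MeasurableSpace.measurableSet_top).prod hS
    rw [← h1] at h2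
    exact h2

theorem AFDD_dec [Group Γ] [MulAction Γ (V d)] {K : Set (V d)} {k : ℝ} {B : ℕ → ℕ → ℝ} (hADMD : ADMD_stmt)
    (hK : FdK Γ K) {G : V d → V d →L[ℝ] V d} (hG : Cls Γ K k B G) (r0 R : ℝ) (A : Finset Γ) :
    (mY Γ d).restrict (GW Γ G r0 2 R ∩ {y | y.1 ∈ A}) =
      ∑ γ ∈ A, (volume.restrict (AFDD_W G r0 R)).map (AFDD_m (d := d) γ) := by
  obtain ⟨-, -, hm0, hs0, hg, -⟩ := hADMD d Γ K k B G hK hG
  have hm : ∀ f : YS Γ d → ENNReal, Measurable f ↔ ∀ γ : Γ, Measurable fun p : P d => f (AFDD_m γ p) := hm0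
  have hs : ∀ f : YS Γ d → ENNReal, Measurable f →
    ∫⁻ y, f y ∂mY Γ d = ∑' γ : Γ, ∫⁻ p : P d, f (AFDD_m γ p) := hs0
  have hGW := (hg r0 2 R).1
  ext S hS
  rw [Measure.restrict_apply hS, Measure.finsetSum_apply]
  have hA : MeasurableSet {y : YS Γ d | y.1 ∈ A} := by
    have h1 : Measurable fun y : YS Γ d => ({y : YS Γ d | y.1 ∈ A}).indicator (1 : YS Γ d → ENNReal) y := by
      rw [hm]
      intro γ
      by_cases h : γ ∈ A
      · have h2 : (fun p : P d => ({y : YS Γ d | y.1 ∈ A}).indicator (1 : YS Γ d → ENNReal) (AFDD_m γ p)) = fun _ => 1 := by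
          funext p
          exact indicator_of_mem (show (AFDD_m γ p) ∈ {y : YS Γ d | y.1 ∈ A} from h) _
        rw [h2]
        exact measurable_const
      · have h2 : (fun p : P d => ({y : YS Γ d | y.1 ∈ A}).indicator (1 : YS Γ d → ENNReal) (AFDD_m γ p)) = fun _ => 0 := by
          funext p
          exact indicator_of_notMem (show (AFDD_m γ p) ∉ {y : YS Γ d | y.1 ∈ A} from h) _
        rw [h2]
        exact measurable_const
    have h3 : {y : YS Γ d | y.1 ∈ A} = (fun y : YS Γ d => ({y : YS Γ d | y.1 ∈ A}).indicator (1 : YS Γ d → ENNReal) y) ⁻¹' {1} := by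
      ext y
      by_cases h : y.1 ∈ A
      · have h4 : y ∈ {y : YS Γ d | y.1 ∈ A} := h
        simp [h4]
      · have h4 : y ∉ {y : YS Γ d | y.1 ∈ A} := h
        simp [h4]
    rw [h3]
    exact h1 (measurableSet_singleton 1)
  have hSA : MeasurableSet (S ∩ (GW Γ G r0 2 R ∩ {y | y.1 ∈ A})) := hS.inter (hGW.inter hA)
  rw [← lintegral_indicator_one hSA, hs _ (measurable_one.indicator hSA)]
  rw [tsum_eq_sum (s := A)]
  · refine Finset.sum_congr rfl fun γ hγ => ?_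
    rw [(AFDD_emb γ).map_apply, Measure.restrict_apply ((AFDD_emb γ).measurable hS)]
    have hW : MeasurableSet (AFDD_W G r0 R) := (AFDD_emb (d := d) γ).measurable hGW
    have h5 : (fun p : P d => (S ∩ (GW Γ G r0 2 R ∩ {y | y.1 ∈ A})).indicator (1 : YS Γ d → ENNReal) (AFDD_m γ p)) =
        ((AFDD_m (d := d) γ) ⁻¹' S ∩ AFDD_W G r0 R).indicator 1 := by
      funext p
      by_cases h : p ∈ (AFDD_m (d := d) γ) ⁻¹' S ∩ AFDD_W G r0 R
      · rw [indicator_of_mem h]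
        exact indicator_of_mem (show (AFDD_m γ p) ∈ S ∩ (GW Γ G r0 2 R ∩ {y | y.1 ∈ A}) from ⟨h.1, h.2, hγ⟩) _
      · rw [indicator_of_notMem h]
        exact indicator_of_notMem (show (AFDD_m γ p) ∉ S ∩ (GW Γ G r0 2 R ∩ {y | y.1 ∈ A}) from
          fun h' => h ⟨h'.1, h'.2.1⟩) _
    rw [h5, lintegral_indicator_one (((AFDD_emb γ).measurable hS).inter hW)]
  · intro γ hγ
    have h5 : (fun p : P d => (S ∩ (GW Γ G r0 2 R ∩ {y | y.1 ∈ A})).indicator (1 : YS Γ d → ENNReal) (AFDD_m γ p)) = fun _ => 0 := by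
      funext p
      exact indicator_of_notMem (show (AFDD_m γ p) ∉ S ∩ (GW Γ G r0 2 R ∩ {y | y.1 ∈ A}) from
        fun h' => hγ h'.2.2) _
    rw [h5, lintegral_zero]

/-- the integral over the window is a sum over the charts -/
theorem AFDD_sum [Group Γ] [MulAction Γ (V d)] {K : Set (V d)} {k : ℝ} {B : ℕ → ℕ → ℝ} (hADMD : ADMD_stmt)
    (hK : FdK Γ K) {G : V d → V d →L[ℝ] V d} (hG : Cls Γ K k B G) (r0 R : ℝ) (A : Finset Γ) {g : YS Γ d → ℂ}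
    (h0 : ∀ y ∈ GW Γ G r0 2 R, y.1 ∉ A → g y = 0)
    (hi : ∀ γ ∈ A, Integrable (fun p : P d => g (AFDD_m γ p)) (volume.restrict (AFDD_W G r0 R))) :
    ∫ y, g y ∂mW Γ G r0 R = ∑ γ ∈ A, ∫ p in AFDD_W G r0 R, g (AFDD_m γ p) := by
  have hGW := ((hADMD d Γ K k B G hK hG).2.2.2.2.1 r0 2 R).1
  have h1 : ∫ y, g y ∂mW Γ G r0 R = ∫ y in GW Γ G r0 2 R ∩ {y | y.1 ∈ A}, g y ∂mY Γ d := by
    unfold mW
    exact setIntegral_eq_of_subset_of_forall_sdiff_eq_zero hGW inter_subset_left fun y hy =>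
      h0 y hy.1 fun h => hy.2 ⟨hy.1, h⟩
  rw [h1, AFDD_dec hADMD hK hG r0 R A, integral_finsetSum_measure]
  · refine Finset.sum_congr rfl fun γ _ => ?_
    exact (AFDD_emb γ).integral_map g
  · intro γ hγ
    exact (AFDD_emb γ).integrable_map_iff.2 (hi γ hγ)

end win

/-! ## Beams -/

section beams

variable {d : ℕ} {Γ : Type}

theorem AFDD_Lag (d : ℕ) : Lag 1 (1 : MC d) (Complex.I • 1) := by
  refine ⟨?_, ?_, ?_, ?_⟩
  · simp
  · rw [Matrix.conjTranspose_one, one_mul, Matrix.conjTranspose_smul, Matrix.conjTranspose_one, mul_one]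
    have h1 : star Complex.I = -Complex.I := Complex.conj_I
    rw [h1, neg_smul, sub_neg_eq_add, ← add_smul]
    congr 1
    ring
  · intro i j
    by_cases h : i = j
    · rw [h, Matrix.one_apply_eq]
      simp
    · rw [Matrix.one_apply_ne h]
      simp
  · intro i j
    rw [Matrix.smul_apply, norm_smul, Complex.norm_I, one_mul]
    by_cases h : i = j
    · rw [h, Matrix.one_apply_eq]
      simp
    · rw [Matrix.one_apply_ne h]
      simp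

theorem AFDD_A [Group Γ] [MulAction Γ (V d)] {K : Set (V d)} (hK : FdK Γ K) (r C1 : ℝ) :
    ∃ A : Finset Γ, ∀ (γ : Γ) (z : V d), ‖z‖ ≤ r → ‖γ⁻¹ • z‖ ≤ C1 → γ ∈ A := by
  have hf := hK.proper (Metric.closedBall (0 : V d) (max r C1)) (isCompact_closedBall _ _)
  refine ⟨hf.toFinset, fun γ z h1 h2 => ?_⟩
  rw [Finite.mem_toFinset]
  refine ⟨γ⁻¹ • z, ?_, ?_⟩
  · rw [mem_closedBall_zero_iff]
    exact h2.trans (le_max_right _ _)
  · rw [smul_inv_smul, mem_closedBall_zero_iff]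
    exact h1.trans (le_max_left _ _)

/-- the weight of the chart `γ` -/
def AFDD_v (χ : V d → ℝ) (ch : ℝ → ℝ) (ζ R : ℝ) (v : YS Γ d → ℂ) (γ : Γ) (p : P d) : ℂ :=
  v (AFDD_m γ p) * ((χ p.1 * cR d ch ζ R : ℝ) : ℂ)

theorem AFDD_v_meas {χ : V d → ℝ} (hχ : Continuous χ) (ch : ℝ → ℝ) (ζ R : ℝ) {v : YS Γ d → ℂ}
    (hv : Measurable v) (γ : Γ) : Measurable (AFDD_v χ ch ζ R v γ) := by
  have h1 : Measurable fun p : P d => v (AFDD_m γ p) := hv.comp (AFDD_emb γ).measurable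
  have h2 : Continuous fun p : P d => ((χ p.1 * cR d ch ζ R : ℝ) : ℂ) :=
    Complex.continuous_ofReal.comp ((hχ.comp continuous_fst).mul continuous_const)
  exact h1.mul h2.measurable

theorem AFDD_v_bd {χ : V d → ℝ} (hχ : ∀ x, 0 ≤ χ x ∧ χ x ≤ 1) (ch : ℝ → ℝ) (ζ R : ℝ) {v : YS Γ d → ℂ}
    {b : ℝ} (hb : ∀ y, ‖v y‖ ≤ b) (γ : Γ) (p : P d) : ‖AFDD_v χ ch ζ R v γ p‖ ≤ b * cR d ch ζ R := by
  have hc : 0 ≤ cR d ch ζ R := Real.sqrt_nonneg _
  have hb0 : 0 ≤ b := (norm_nonneg _).trans (hb (AFDD_m γ p))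
  unfold AFDD_v
  rw [norm_mul, Complex.norm_real, Real.norm_eq_abs, abs_of_nonneg (mul_nonneg (hχ _).1 hc)]
  refine mul_le_mul (hb _) ?_ (mul_nonneg (hχ _).1 hc) hb0
  calc χ p.1 * cR d ch ζ R ≤ 1 * cR d ch ζ R := mul_le_mul_of_nonneg_right (hχ _).2 hc
    _ = cR d ch ζ R := one_mul _

/-- locally the synthesis is a finite sum of integrals over the window -/
theorem AFDD_loc [Group Γ] [MulAction Γ (V d)] {K : Set (V d)} {k : ℝ} {B : ℕ → ℕ → ℝ} (hADMD : ADMD_stmt)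
    (hK : FdK Γ K) {G : V d → V d →L[ℝ] V d} (hG : Cls Γ K k B G) {r0 R : ℝ} {Kc : Set (P d)}
    (hKc : IsCompact Kc) [IsFiniteMeasure ((volume : Measure (P d)).restrict (AFDD_W G r0 R))]
    (hμ : ∀ᵐ q ∂((volume : Measure (P d)).restrict (AFDD_W G r0 R)), q ∈ Kc)
    {χ : V d → ℝ} (hχc : Continuous χ) (hχ : ∀ x, 0 ≤ χ x ∧ χ x ≤ 1) {ch : ℝ → ℝ} {ζ : ℝ} {v : YS Γ d → ℂ}
    (hv : Measurable v) {b : ℝ} (hb : ∀ y, ‖v y‖ ≤ b) {h : P d → ℝ → V d → ℂ}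
    (hc : Continuous fun x : (P d × ℝ) × V d => h x.1.1 x.1.2 x.2) {r C1 : ℝ} {A : Finset Γ}
    (hA : ∀ (γ : Γ) (z : V d), ‖z‖ ≤ r → ‖γ⁻¹ • z‖ ≤ C1 → γ ∈ A) {s : ℝ} {z : V d} (hz : ‖z‖ ≤ r)
    (hs : ∀ p ∈ AFDD_W G r0 R, ∀ w, h p s w ≠ 0 → ‖w‖ ≤ C1) :
    sF G r0 R (fun y w => ((χ y.2.1 * cR d ch ζ R : ℝ) : ℂ) * h y.2 s w) v z =
      ∑ γ ∈ A, ∫ p in AFDD_W G r0 R, AFDD_v χ ch ζ R v γ p • h p s (γ⁻¹ • z) := by
  have hcc : ∀ w : V d, Continuous fun x : ℝ × P d => h x.2 x.1 w := fun w =>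
    hc.comp ((continuous_snd.prodMk continuous_fst).prodMk continuous_const)
  have e : ∀ (γ : Γ) (p : P d), v (AFDD_m γ p) * pF (fun y w => ((χ y.2.1 * cR d ch ζ R : ℝ) : ℂ) * h y.2 s w) (AFDD_m γ p) z =
      AFDD_v χ ch ζ R v γ p • h p s (γ⁻¹ • z) := by
    intro γ p
    show v (AFDD_m γ p) * (((χ p.1 * cR d ch ζ R : ℝ) : ℂ) * h p s (γ⁻¹ • z)) = _
    rw [AFDD_v, smul_eq_mul, mul_assoc]
  unfold sF
  rw [AFDD_sum hADMD hK hG r0 R A]
  · refine Finset.sum_congr rfl fun γ _ => ?_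
    exact integral_congr_ae (Eventually.of_forall fun p => e γ p)
  · intro y hy hyA
    have h1 : h y.2 s (y.1⁻¹ • z) = 0 := by
      by_contra hne
      exact hyA (hA y.1 z hz (hs y.2 hy _ hne))
    show v y * (((χ y.2.1 * cR d ch ζ R : ℝ) : ℂ) * h y.2 s (y.1⁻¹ • z)) = 0
    rw [h1, mul_zero, mul_zero]
  · intro γ _
    have h1 := AFDD_int (f := fun (s : ℝ) p => h p s (γ⁻¹ • z)) hKc hμ (hcc (γ⁻¹ • z))
      (AFDD_v_meas hχc ch ζ R hv γ) (AFDD_v_bd hχ ch ζ R hb γ) s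
    exact h1.congr (Eventually.of_forall fun p => (e γ p).symm)

/-- the derivatives of an integral of beams -/
theorem AFDD_C2 {G : V d → V d →L[ℝ] V d} (hG : IsMetric G) (hd : ContDiff ℝ ∞ (dens G))
    (hp : ∀ x, 0 < dens G x) {μ : Measure (P d)} [IsFiniteMeasure μ] {Kc : Set (P d)}
    (hKc : IsCompact Kc) (hμ : ∀ᵐ q ∂μ, q ∈ Kc) {v : P d → ℂ} (hv : Measurable v) {b : ℝ}
    (hb : ∀ q, ‖v q‖ ≤ b) {f : P d → V d → ℂ} (hf : ∀ q, ContDiff ℝ 2 (f q))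
    (h0 : Continuous fun x : V d × P d => f x.2 x.1)
    (h1 : Continuous fun x : V d × P d => fderiv ℝ (f x.2) x.1)
    (h2 : Continuous fun x : V d × P d => fderiv ℝ (fderiv ℝ (f x.2)) x.1) :
    ContDiff ℝ 2 (fun w => ∫ q, v q • f q w ∂μ) ∧
    ∀ w, lap G (fun w => ∫ q, v q • f q w ∂μ) w = ∫ q, v q • lap G (f q) w ∂μ := by
  have d1 : ∀ w, HasFDerivAt (fun w => ∫ q, v q • f q w ∂μ) (∫ q, v q • fderiv ℝ (f q) w ∂μ) w :=
    fun w => AFDD_fderiv (f := fun w q => f q w) (f' := fun w q => fderiv ℝ (f q) w) hKc hμ h0 h1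
      (fun p q => ((hf q).differentiable (by norm_num) p).hasFDerivAt) hv hb w
  have e1 : fderiv ℝ (fun w => ∫ q, v q • f q w ∂μ) = fun w => ∫ q, v q • fderiv ℝ (f q) w ∂μ :=
    funext fun w => (d1 w).fderiv
  have d2 : ∀ w, HasFDerivAt (fun w => ∫ q, v q • fderiv ℝ (f q) w ∂μ) (∫ q, v q • fderiv ℝ (fderiv ℝ (f q)) w ∂μ) w :=
    fun w => AFDD_fderiv (f := fun w q => fderiv ℝ (f q) w) (f' := fun w q => fderiv ℝ (fderiv ℝ (f q)) w) hKc hμ h1 h2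
      (fun p q => by
        have h3 : ContDiff ℝ 1 (fderiv ℝ (f q)) := (hf q).fderiv_right (by norm_num)
        exact (h3.differentiable (by norm_num) p).hasFDerivAt) hv hb w
  have e2 : fderiv ℝ (fun w => ∫ q, v q • fderiv ℝ (f q) w ∂μ) = fun w => ∫ q, v q • fderiv ℝ (fderiv ℝ (f q)) w ∂μ :=
    funext fun w => (d2 w).fderiv
  have c2 : Continuous fun w => ∫ q, v q • fderiv ℝ (fderiv ℝ (f q)) w ∂μ :=
    AFDD_cont (f := fun w q => fderiv ℝ (fderiv ℝ (f q)) w) hKc hμ h2 hv hb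
  have hC : ContDiff ℝ 2 (fun w => ∫ q, v q • f q w ∂μ) := by
    have h3 : ContDiff ℝ 1 (fun w => ∫ q, v q • fderiv ℝ (f q) w ∂μ) := by
      rw [contDiff_one_iff_fderiv]
      refine ⟨fun w => (d2 w).differentiableAt, ?_⟩
      rw [e2]
      exact c2
    have h4 : (2 : WithTop ℕ∞) = 1 + 1 := by norm_num
    rw [h4, contDiff_succ_iff_fderiv]
    refine ⟨fun w => (d1 w).differentiableAt, by simp, ?_⟩
    rw [e1]
    exact h3
  refine ⟨hC, fun w => ?_⟩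
  rw [AFDD_lap hG hd hp hC.contDiffAt, e1, e2]
  have i1 := AFDD_int (f := fun w q => fderiv ℝ (f q) w) hKc hμ h1 hv hb w
  have i2 := AFDD_int (f := fun w q => fderiv ℝ (fderiv ℝ (f q)) w) hKc hμ h2 hv hb w
  show AFDD_L G w (∫ q, v q • fderiv ℝ (f q) w ∂μ, ∫ q, v q • fderiv ℝ (fderiv ℝ (f q)) w ∂μ) = _
  rw [← integral_pair i1 i2]
  have h3 := ContinuousLinearMap.integral_comp_comm (𝕜 := ℝ) (Fₗ := ℂ) (μ := μ) (AFDD_L G w)
    (φ := fun q => (v q • fderiv ℝ (f q) w, v q • fderiv ℝ (fderiv ℝ (f q)) w)) (by exact i1.prodMk i2)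
  refine h3.symm.trans ?_
  refine integral_congr_ae (Eventually.of_forall fun q => ?_)
  show AFDD_L G w (v q • fderiv ℝ (f q) w, v q • fderiv ℝ (fderiv ℝ (f q)) w) = v q • lap G (f q) w
  rw [AFDD_L_smul, AFDD_lap hG hd hp (hf q).contDiffAt, smul_eq_mul]

/-- the supports of the synthesised functions are uniformly bounded modulo `Λ` -/
theorem AFDD_bs [Group Γ] [MulAction Γ (V d)] {K : Set (V d)}
    (hK : FdK Γ K) (G : V d → V d →L[ℝ] V d) (r0 R C1 : ℝ) (χ : V d → ℝ) (ch : ℝ → ℝ) (ζ : ℝ)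
    {Λ : Subgroup Γ} {F : Set (V d)} {T : Set Γ} (hdm : Dm Λ F T) {v : YS Γ d → ℂ} (hv : FP Λ T v) :
    ∃ b : ℝ, ∀ (h : P d → V d → ℂ), (∀ p ∈ AFDD_W G r0 R, ∀ w, h p w ≠ 0 → ‖w‖ ≤ C1) → ∀ z ∈ F,
      sF G r0 R (fun y w => ((χ y.2.1 * cR d ch ζ R : ℝ) : ℂ) * h y.2 w) v z ≠ 0 → ‖z‖ ≤ b := by
  rcases hdm with ⟨-, hFD, -⟩ | ⟨-, -, hT⟩
  · obtain ⟨b, hb⟩ := hFD.bdd
    exact ⟨b, fun h _ z hz _ => hb z hz⟩
  · obtain ⟨S, hS⟩ := hv.supp
    have hc : IsCompact (⋃ γ ∈ S, (fun w : V d => γ • w) '' Metric.closedBall (0 : V d) C1) :=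
      S.isCompact_biUnion fun γ _ => (isCompact_closedBall (0 : V d) C1).image (hK.smooth γ).continuous
    obtain ⟨b, hb⟩ := hc.isBounded.subset_closedBall (0 : V d)
    refine ⟨b, fun h hh z _ hne => ?_⟩
    by_contra hlt
    apply hne
    unfold sF mW
    refine setIntegral_eq_zero_of_forall_eq_zero fun y hy => ?_
    by_contra h0
    have h1 : v y ≠ 0 := left_ne_zero_of_mul h0
    have h2 : ((χ y.2.1 * cR d ch ζ R : ℝ) : ℂ) * h y.2 (y.1⁻¹ • z) ≠ 0 := right_ne_zero_of_mul h0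
    have h3 : ‖y.1⁻¹ • z‖ ≤ C1 := hh y.2 hy _ (right_ne_zero_of_mul h2)
    have h4 : y.1 ∈ S := hS y (by rw [hT]; exact mem_univ _) h1
    have h5 : z ∈ ⋃ γ ∈ S, (fun w : V d => γ • w) '' Metric.closedBall (0 : V d) C1 := by
      refine mem_biUnion h4 ⟨y.1⁻¹ • z, ?_, smul_inv_smul _ _⟩
      rw [mem_closedBall_zero_iff]
      exact h3
    have h6 := hb h5
    rw [mem_closedBall_zero_iff] at h6
    exact hlt h6

theorem AFDD_lin3 {μ : Measure (P d)} {v f g h : P d → ℂ}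
    (i1 : Integrable (fun q => v q • f q) μ) (i2 : Integrable (fun q => v q • g q) μ)
    (i3 : Integrable (fun q => v q • h q) μ) (c1 c2 c3 : ℂ) :
    ∫ q, v q • (c1 * f q + c2 * g q + c3 * h q) ∂μ =
      c1 * (∫ q, v q • f q ∂μ) + c2 * (∫ q, v q • g q ∂μ) + c3 * (∫ q, v q • h q ∂μ) := by
  have e : (fun q => v q • (c1 * f q + c2 * g q + c3 * h q)) =
      fun q => (c1 * (v q • f q) + c2 * (v q • g q)) + c3 * (v q • h q) := by
    funext q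
    simp only [smul_eq_mul]
    ring
  have j1 := i1.const_mul c1
  have j2 := i2.const_mul c2
  have j3 := i3.const_mul c3
  have j12 : Integrable (fun q => c1 * (v q • f q) + c2 * (v q • g q)) μ := j1.add j2
  rw [e, integral_add j12 j3, integral_add j1 j2, integral_const_mul, integral_const_mul,
    integral_const_mul]

/-- a family with the profile `h` -/
def AFDD_f (χ : V d → ℝ) (ch : ℝ → ℝ) (ζ R : ℝ) (h : P d → ℝ → V d → ℂ) (s : ℝ) (y : YS Γ d) (w : V d) : ℂ :=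
  ((χ y.2.1 * cR d ch ζ R : ℝ) : ℂ) * h y.2 s w

/-- the environment -/
structure AFDD_E [Group Γ] [MulAction Γ (V d)] (G : V d → V d →L[ℝ] V d) (r0 R C1 bw : ℝ) (Kc : Set (P d))
    (χ : V d → ℝ) (ch : ℝ → ℝ) (ζ : ℝ) (v : YS Γ d → ℂ) : Prop where
  met : IsMetric G
  ds : ContDiff ℝ ∞ (dens G)
  pos : ∀ x, 0 < dens G x
  linv : ∀ (φ : V d → ℂ) (γ : Γ) (x : V d), ContDiff ℝ 2 φ → lap G (fun y => φ (γ • y)) x = lap G φ (γ • x)
  sm : ∀ γ : Γ, ContDiff ℝ 2 fun x : V d => γ • x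
  fin : ∀ r : ℝ, ∃ A : Finset Γ, ∀ (γ : Γ) (z : V d), ‖z‖ ≤ r → ‖γ⁻¹ • z‖ ≤ C1 → γ ∈ A
  cpt : IsCompact Kc
  fm : IsFiniteMeasure ((volume : Measure (P d)).restrict (AFDD_W G r0 R))
  mem : ∀ᵐ q ∂((volume : Measure (P d)).restrict (AFDD_W G r0 R)), q ∈ Kc
  vm : ∀ γ : Γ, Measurable (AFDD_v χ ch ζ R v γ)
  vb : ∀ (γ : Γ) (p : P d), ‖AFDD_v χ ch ζ R v γ p‖ ≤ bw
  loc : ∀ h : P d → ℝ → V d → ℂ, (Continuous fun x : (P d × ℝ) × V d => h x.1.1 x.1.2 x.2) →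
    ∀ (r : ℝ) (A : Finset Γ), (∀ (γ : Γ) (z : V d), ‖z‖ ≤ r → ‖γ⁻¹ • z‖ ≤ C1 → γ ∈ A) → ∀ (s : ℝ) (z : V d), ‖z‖ ≤ r →
      (∀ p ∈ AFDD_W G r0 R, ∀ w, h p s w ≠ 0 → ‖w‖ ≤ C1) → sF G r0 R (AFDD_f χ ch ζ R h s) v z =
      ∑ γ ∈ A, ∫ p in AFDD_W G r0 R, AFDD_v χ ch ζ R v γ p • h p s (γ⁻¹ • z)

section env

variable [Group Γ] [MulAction Γ (V d)] {G : V d → V d →L[ℝ] V d} {r0 R C1 bw : ℝ} {Kc : Set (P d)}
    {χ : V d → ℝ} {ch : ℝ → ℝ} {ζ : ℝ} {v : YS Γ d → ℂ}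

theorem AFDD_nz (z0 : V d) : ∀ᶠ z in 𝓝 z0, ‖z‖ < ‖z0‖ + 1 :=
  (isOpen_lt continuous_norm continuous_const).mem_nhds (show ‖z0‖ < ‖z0‖ + 1 by linarith)

theorem AFDD_ns {s0 : ℝ} (hs0 : |s0| < 2) : ∀ᶠ s in 𝓝 s0, |s| < 2 :=
  (isOpen_lt continuous_abs continuous_const).mem_nhds hs0

theorem AFDD_sw : Continuous fun x : (ℝ × V d) × P d => (((x.2, x.1.1), x.1.2) : (P d × ℝ) × V d) :=
  (continuous_snd.prodMk continuous_fst.fst).prodMk continuous_fst.snd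

theorem AFDD_sz (z : V d) : Continuous fun x : ℝ × P d => (((x.2, x.1), z) : (P d × ℝ) × V d) :=
  (continuous_snd.prodMk continuous_fst).prodMk continuous_const

theorem AFDD_ss (s : ℝ) : Continuous fun x : V d × P d => (((x.2, s), x.1) : (P d × ℝ) × V d) :=
  (continuous_snd.prodMk continuous_const).prodMk continuous_fst

/-- joint continuity of the integrals -/
theorem AFDD_J (hE : AFDD_E G r0 R C1 bw Kc χ ch ζ v) {E : Type} [NormedAddCommGroup E]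
    [NormedSpace ℂ E] [NormedSpace ℝ E] {h : P d → ℝ → V d → E}
    (hc : Continuous fun x : (P d × ℝ) × V d => h x.1.1 x.1.2 x.2) (γ : Γ) :
    Continuous fun x : ℝ × V d => ∫ p in AFDD_W G r0 R, AFDD_v χ ch ζ R v γ p • h p x.1 x.2 := by
  have := hE.fm
  exact AFDD_cont (f := fun (x : ℝ × V d) p => h p x.1 x.2) hE.cpt hE.mem (hc.comp AFDD_sw) (hE.vm γ) (hE.vb γ)

theorem AFDD_Kc (hE : AFDD_E G r0 R C1 bw Kc χ ch ζ v) {h : P d → ℝ → V d → ℂ}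
    (hc : Continuous fun x : (P d × ℝ) × V d => h x.1.1 x.1.2 x.2) {H : ℝ → V d → ℂ}
    (hH : ∀ (r : ℝ) (A : Finset Γ), (∀ (γ : Γ) (z : V d), ‖z‖ ≤ r → ‖γ⁻¹ • z‖ ≤ C1 → γ ∈ A) → ∀ (s : ℝ) (z : V d),
      |s| ≤ 2 → ‖z‖ < r → H s z = ∑ γ ∈ A, ∫ p in AFDD_W G r0 R, AFDD_v χ ch ζ R v γ p • h p s (γ⁻¹ • z))
    {x : ℝ × V d} (hx : |x.1| < 2) : ContinuousAt (fun x : ℝ × V d => H x.1 x.2) x := by
  obtain ⟨A, hA⟩ := hE.fin (‖x.2‖ + 1)
  have h1 : Continuous fun x : ℝ × V d => ∑ γ ∈ A, ∫ p in AFDD_W G r0 R, AFDD_v χ ch ζ R v γ p • h p x.1 (γ⁻¹ • x.2) := by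
    refine continuous_finsetSum A fun γ _ => ?_
    have h2 : Continuous fun x : ℝ × V d => ((x.1, γ⁻¹ • x.2) : ℝ × V d) :=
      continuous_fst.prodMk ((hE.sm γ⁻¹).continuous.comp continuous_snd)
    exact (AFDD_J hE hc γ).comp h2
  refine h1.continuousAt.congr ?_
  filter_upwards [continuousAt_fst.eventually (AFDD_ns hx), continuousAt_snd.eventually (AFDD_nz x.2)] with y hy1 hy2
  exact (hH _ A hA y.1 y.2 (le_of_lt hy1) hy2).symm

/-- the second derivatives of the integrals -/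
theorem AFDD_JC (hE : AFDD_E G r0 R C1 bw Kc χ ch ζ v) {h : P d → ℝ → V d → ℂ}
    (m1 : ∀ p s, ContDiff ℝ 2 (h p s))
    (m2 : Continuous fun x : (P d × ℝ) × V d => h x.1.1 x.1.2 x.2)
    (m3 : Continuous fun x : (P d × ℝ) × V d => fderiv ℝ (h x.1.1 x.1.2) x.2)
    (m4 : Continuous fun x : (P d × ℝ) × V d => fderiv ℝ (fderiv ℝ (h x.1.1 x.1.2)) x.2) (γ : Γ) (s : ℝ) :
    ContDiff ℝ 2 (fun w => ∫ p in AFDD_W G r0 R, AFDD_v χ ch ζ R v γ p • h p s w) ∧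
      ∀ w, lap G (fun w => ∫ p in AFDD_W G r0 R, AFDD_v χ ch ζ R v γ p • h p s w) w =
        ∫ p in AFDD_W G r0 R, AFDD_v χ ch ζ R v γ p • lap G (h p s) w := by
  have := hE.fm
  exact AFDD_C2 (f := fun p w => h p s w) hE.met hE.ds hE.pos hE.cpt hE.mem (hE.vm γ) (hE.vb γ) (fun p => m1 p s)
    (m2.comp (AFDD_ss s)) (m3.comp (AFDD_ss s)) (m4.comp (AFDD_ss s))

theorem AFDD_reg (hE : AFDD_E G r0 R C1 bw Kc χ ch ζ v) {h : P d → ℝ → V d → ℂ}
    (m1 : ∀ p s, ContDiff ℝ 2 (h p s))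
    (m2 : Continuous fun x : (P d × ℝ) × V d => h x.1.1 x.1.2 x.2)
    (m3 : Continuous fun x : (P d × ℝ) × V d => fderiv ℝ (h x.1.1 x.1.2) x.2)
    (m4 : Continuous fun x : (P d × ℝ) × V d => fderiv ℝ (fderiv ℝ (h x.1.1 x.1.2)) x.2)
    {s : ℝ} (hs : ∀ p ∈ AFDD_W G r0 R, ∀ w, h p s w ≠ 0 → ‖w‖ ≤ C1) :
    ContDiff ℝ 2 (sF G r0 R (AFDD_f χ ch ζ R h s) v) ∧
    ∀ (r : ℝ) (A : Finset Γ), (∀ (γ : Γ) (z : V d), ‖z‖ ≤ r → ‖γ⁻¹ • z‖ ≤ C1 → γ ∈ A) → ∀ z : V d, ‖z‖ < r →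
      lap G (sF G r0 R (AFDD_f χ ch ζ R h s) v) z =
        ∑ γ ∈ A, ∫ p in AFDD_W G r0 R, AFDD_v χ ch ζ R v γ p • lap G (h p s) (γ⁻¹ • z) := by
  have hC := AFDD_JC hE m1 m2 m3 m4
  have hCg : ∀ γ : Γ, ContDiff ℝ 2 fun z : V d => ∫ p in AFDD_W G r0 R, AFDD_v χ ch ζ R v γ p • h p s (γ⁻¹ • z) :=
    fun γ => (hC γ s).1.comp (hE.sm γ⁻¹)
  have C2 : ContDiff ℝ 2 (sF G r0 R (AFDD_f χ ch ζ R h s) v) := by
    rw [contDiff_iff_contDiffAt]
    intro z0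
    obtain ⟨A, hA⟩ := hE.fin (‖z0‖ + 1)
    have h1 : ContDiff ℝ 2 fun z : V d => ∑ γ ∈ A, ∫ p in AFDD_W G r0 R, AFDD_v χ ch ζ R v γ p • h p s (γ⁻¹ • z) :=
      ContDiff.sum fun γ _ => hCg γ
    refine h1.contDiffAt.congr_of_eventuallyEq ?_
    filter_upwards [AFDD_nz z0] with z hz
    exact hE.loc h m2 _ A hA s z hz.le hs
  refine ⟨C2, fun r A hA z hz => ?_⟩
  have h1 : sF G r0 R (AFDD_f χ ch ζ R h s) v =ᶠ[𝓝 z] fun z => ∑ γ ∈ A, ∫ p in AFDD_W G r0 R,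
      AFDD_v χ ch ζ R v γ p • h p s (γ⁻¹ • z) := by
    filter_upwards [(isOpen_lt continuous_norm continuous_const).mem_nhds hz] with z' hz'
    exact hE.loc h m2 r A hA s z' (le_of_lt hz') hs
  rw [AFDD_lap_congr hE.met hE.ds hE.pos C2.contDiffAt h1, AFDD_lap_sum hE.met hE.ds hE.pos A hCg]
  refine Finset.sum_congr rfl fun γ _ => ?_
  rw [← (hC γ s).2]
  exact hE.linv (fun w => ∫ p in AFDD_W G r0 R, AFDD_v χ ch ζ R v γ p • h p s w) γ⁻¹ z (hC γ s).1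

/-- the derivative in time -/
theorem AFDD_time (hE : AFDD_E G r0 R C1 bw Kc χ ch ζ v) {h e : P d → ℝ → V d → ℂ}
    (m1 : ∀ p s, ContDiff ℝ 2 (h p s))
    (m2 : Continuous fun x : (P d × ℝ) × V d => h x.1.1 x.1.2 x.2)
    (m3 : Continuous fun x : (P d × ℝ) × V d => fderiv ℝ (h x.1.1 x.1.2) x.2)
    (m4 : Continuous fun x : (P d × ℝ) × V d => fderiv ℝ (fderiv ℝ (h x.1.1 x.1.2)) x.2)
    (m5 : Continuous fun x : (P d × ℝ) × V d => lap G (h x.1.1 x.1.2) x.2)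
    (m6 : Continuous fun x : (P d × ℝ) × V d => e x.1.1 x.1.2 x.2)
    (m8 : ∀ p s w, HasDerivAt (fun s => h p s w) (-(Complex.I * Hop G R (h p s) w) - Complex.I * e p s w) s)
    (hs : ∀ p ∈ AFDD_W G r0 R, ∀ s : ℝ, |s| ≤ 2 → ∀ w, h p s w ≠ 0 → ‖w‖ ≤ C1)
    (hs' : ∀ p ∈ AFDD_W G r0 R, ∀ s : ℝ, |s| ≤ 2 → ∀ w, e p s w ≠ 0 → ‖w‖ ≤ C1) {s : ℝ} (hs2 : |s| < 2) (z : V d) :
    HasDerivAt (fun r => sF G r0 R (AFDD_f χ ch ζ R h r) v z)
      (-(Complex.I * Hop G R (sF G r0 R (AFDD_f χ ch ζ R h s) v) z) +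
        -(Complex.I * sF G r0 R (AFDD_f χ ch ζ R e s) v z)) s := by
  have := hE.fm
  obtain ⟨A, hA⟩ := hE.fin (‖z‖ + 1)
  set c1 : ℂ := Complex.I * (((2 * R)⁻¹ : ℝ) : ℂ) with hc1
  set c2 : ℂ := Complex.I * (((2 * R)⁻¹ : ℝ) : ℂ) * ((R ^ 2 : ℝ) : ℂ) with hc2
  have hder : ∀ γ : Γ, HasDerivAt (fun s => ∫ p in AFDD_W G r0 R, AFDD_v χ ch ζ R v γ p • h p s (γ⁻¹ • z))
      (c1 * (∫ p in AFDD_W G r0 R, AFDD_v χ ch ζ R v γ p • lap G (h p s) (γ⁻¹ • z)) +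
        c2 * (∫ p in AFDD_W G r0 R, AFDD_v χ ch ζ R v γ p • h p s (γ⁻¹ • z)) +
        -Complex.I * (∫ p in AFDD_W G r0 R, AFDD_v χ ch ζ R v γ p • e p s (γ⁻¹ • z))) s := by
    intro γ
    have q1 : Continuous fun x : ℝ × P d => h x.2 x.1 (γ⁻¹ • z) := m2.comp (AFDD_sz _)
    have q2 : Continuous fun x : ℝ × P d => lap G (h x.2 x.1) (γ⁻¹ • z) := m5.comp (AFDD_sz _)
    have q3 : Continuous fun x : ℝ × P d => e x.2 x.1 (γ⁻¹ • z) := m6.comp (AFDD_sz _)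
    have q4 : Continuous fun x : ℝ × P d => c1 * lap G (h x.2 x.1) (γ⁻¹ • z) +
        c2 * h x.2 x.1 (γ⁻¹ • z) + -Complex.I * e x.2 x.1 (γ⁻¹ • z) :=
      ((continuous_const.mul q2).add (continuous_const.mul q1)).add (continuous_const.mul q3)
    have hd : ∀ (r : ℝ) (p : P d), HasDerivAt (fun r => h p r (γ⁻¹ • z))
        (c1 * lap G (h p r) (γ⁻¹ • z) + c2 * h p r (γ⁻¹ • z) + -Complex.I * e p r (γ⁻¹ • z)) r := by
      intro r p
      have h2 : -(Complex.I * Hop G R (h p r) (γ⁻¹ • z)) - Complex.I * e p r (γ⁻¹ • z) =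
          c1 * lap G (h p r) (γ⁻¹ • z) + c2 * h p r (γ⁻¹ • z) + -Complex.I * e p r (γ⁻¹ • z) := by
        rw [hc1, hc2, Hop]
        ring
      rw [← h2]
      exact m8 p r (γ⁻¹ • z)
    have h3 := AFDD_deriv (f := fun r p => h p r (γ⁻¹ • z))
      (f' := fun r p => c1 * lap G (h p r) (γ⁻¹ • z) + c2 * h p r (γ⁻¹ • z) + -Complex.I * e p r (γ⁻¹ • z))
      hE.cpt hE.mem q1 q4 hd (hE.vm γ) (hE.vb γ) s
    have i1 := AFDD_int (f := fun r p => h p r (γ⁻¹ • z)) hE.cpt hE.mem q1 (hE.vm γ) (hE.vb γ) s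
    have i2 := AFDD_int (f := fun r p => lap G (h p r) (γ⁻¹ • z)) hE.cpt hE.mem q2 (hE.vm γ) (hE.vb γ) s
    have i3 := AFDD_int (f := fun r p => e p r (γ⁻¹ • z)) hE.cpt hE.mem q3 (hE.vm γ) (hE.vb γ) s
    rw [← AFDD_lin3 i2 i1 i3 c1 c2 (-Complex.I)]
    exact h3
  have hsum : HasDerivAt (fun s => ∑ γ ∈ A, ∫ p in AFDD_W G r0 R, AFDD_v χ ch ζ R v γ p • h p s (γ⁻¹ • z)) _ s :=
    HasDerivAt.fun_sum fun γ _ => hder γ
  have hev : (fun r => sF G r0 R (AFDD_f χ ch ζ R h r) v z) =ᶠ[𝓝 s] fun s => ∑ γ ∈ A, ∫ p in AFDD_W G r0 R,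
      AFDD_v χ ch ζ R v γ p • h p s (γ⁻¹ • z) := by
    filter_upwards [AFDD_ns hs2] with r hr
    exact hE.loc h m2 _ A hA r z (by linarith) fun p hp w hw => hs p hp r (le_of_lt hr) w hw
  refine (hsum.congr_of_eventuallyEq hev).congr_deriv ?_
  have r2 := (AFDD_reg hE m1 m2 m3 m4 fun p hp w hw => hs p hp s hs2.le w hw).2 _ A hA z (by linarith)
  have r1 := hE.loc h m2 _ A hA s z (by linarith) fun p hp w hw => hs p hp s hs2.le w hw
  have r3 := hE.loc e m6 _ A hA s z (by linarith) fun p hp w hw => hs' p hp s hs2.le w hw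
  rw [Hop, r1, r2, r3, Finset.sum_add_distrib, Finset.sum_add_distrib, ← Finset.mul_sum, ← Finset.mul_sum,
    ← Finset.mul_sum, hc1, hc2]
  ring

end env

end beams

theorem AFDD_half {R : ℝ} (hR : 16 ≤ R) : R ^ (-(1 / 4) : ℝ) ≤ 1 / 2 := by
  have h2 : R ^ (-(1 / 4) : ℝ) ≤ (16 : ℝ) ^ (-(1 / 4) : ℝ) :=
    Real.rpow_le_rpow_of_nonpos (by norm_num) hR (by norm_num)
  have h3 : (16 : ℝ) ^ (-(1 / 4) : ℝ) = 1 / 2 := by
    have h4 : (16 : ℝ) = 2 ^ (4 : ℝ) := by norm_num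
    rw [h4, ← Real.rpow_mul (by norm_num)]
    norm_num
  rw [← h3]
  exact h2

/-- the window lies in a ball -/
theorem AFDD_win (hACNF : ACNF_stmt) {d : ℕ} {Γ : Type} [Group Γ] [MulAction Γ (V d)] {K : Set (V d)} (k : ℝ)
    (B : ℕ → ℕ → ℝ) (r0 : ℝ) (hK : FdK Γ K) : ∃ C : ℝ, 1 ≤ C ∧ ∀ (R : ℝ) (G : V d → V d →L[ℝ] V d) (Φ : ℝ → P d → P d), 16 ≤ R →
      OKA Γ K k B G Φ → AFDD_W G r0 R ⊆ Metric.closedBall (0 : P d) C ∧
      ∀ p ∈ AFDD_W G r0 R, ∀ s : ℝ, |s| ≤ 2 → ‖(Φ s p).1‖ ≤ C := by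
  obtain ⟨CN, hCN1, hN⟩ := hACNF d Γ K k B r0 2 hK
  refine ⟨CN, hCN1, fun R G Φ hR hOK => ?_⟩
  have hHam : ∀ p ∈ AFDD_W G r0 R, Ham G p ≤ 2 := by
    intro p hp
    have h1 := AFDD_half hR
    have h5 := (abs_le.1 hp.2).2
    unfold Ep at h5
    linarith
  refine ⟨?_, fun p hp s hs => (hN G Φ hOK p s hp.1 (hHam p hp) hs).1⟩
  intro p hp
  have h1 := hN G Φ hOK p 0 hp.1 (hHam p hp) (by simp)
  rw [hOK.flow.zero] at h1
  rw [mem_closedBall_zero_iff, Prod.norm_def]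
  exact max_le h1.1 h1.2.1

/-- the environment of the beams -/
theorem AFDD_env (hADMD : ADMD_stmt) (hAMVI : AMVI_stmt) {d : ℕ} {Γ : Type} [Group Γ] [MulAction Γ (V d)]
    {K : Set (V d)} {k : ℝ} {B : ℕ → ℕ → ℝ} {r0 : ℝ} {χ : V d → ℝ} (hK : FdK Γ K) (hχ : PU Γ r0 χ)
    {G : V d → V d →L[ℝ] V d} (hG : Cls Γ K k B G) {R C : ℝ} (hW : AFDD_W G r0 R ⊆ Metric.closedBall (0 : P d) C)
    (ch : ℝ → ℝ) (ζ : ℝ) {v : YS Γ d → ℂ} (hv : Measurable v) {bv : ℝ} (hbv : ∀ y, ‖v y‖ ≤ bv) (C1 : ℝ) :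
    AFDD_E G r0 R C1 (bv * cR d ch ζ R) (Metric.closedBall (0 : P d) C) χ ch ζ v := by
  obtain ⟨-, hdens, hpos, -, -, -, -, -, hlapinv⟩ := hAMVI d Γ K k B G hK hG
  have hGW := (hADMD d Γ K k B G hK hG).2.2.2.2.1 r0 2 R
  have hWm : MeasurableSet (AFDD_W G r0 R) := (AFDD_emb (d := d) (1 : Γ)).measurable hGW.1
  have hfin : IsFiniteMeasure ((volume : Measure (P d)).restrict (AFDD_W G r0 R)) :=
    ⟨by rw [Measure.restrict_apply_univ]; exact hGW.2.2⟩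
  have hμ : ∀ᵐ q ∂((volume : Measure (P d)).restrict (AFDD_W G r0 R)), q ∈ Metric.closedBall (0 : P d) C :=
    (ae_restrict_iff' hWm).2 (Eventually.of_forall hW)
  exact
    { met := hG.met
      ds := hdens
      pos := hpos
      linv := hlapinv
      sm := fun γ => (hK.smooth γ).of_le (by norm_cast)
      fin := fun r => AFDD_A hK r C1
      cpt := isCompact_closedBall _ _
      fm := hfin
      mem := hμ
      vm := fun γ => AFDD_v_meas hχ.smooth.continuous ch ζ R hv γ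
      vb := fun γ p => AFDD_v_bd hχ.bd ch ζ R hbv γ p
      loc := fun h hc r A hA s z hz hs => AFDD_loc (h := h) hADMD hK hG (isCompact_closedBall _ _) hμ
        hχ.smooth.continuous hχ.bd hv hbv hc hA hz hs }

/-- **Row AFDD**: evolution of synthesised beams -/
theorem AFDD_proof (hABMR : ABMR_stmt) (hAFRD : AFRD_stmt) (hAFMD : AFMD_stmt) (hACNF : ACNF_stmt)
    (hADMD : ADMD_stmt) (hAMVI : AMVI_stmt) : AFDD_stmt := by
  intro d Γ _ _ K k B r0 χ hK hχ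
  obtain ⟨CM, hCM1, hM⟩ := hAFMD d Γ K k B r0 χ hK hχ
  obtain ⟨CR, hCR1, hRD⟩ := hAFRD d Γ K k B r0 hK
  obtain ⟨CN, hCN1, hN⟩ := AFDD_win hACNF k B r0 hK
  refine ⟨max 8 (4 * CM), le_trans (by norm_num) (le_max_left _ _), ?_⟩
  intro ch ζ ζ1 hch hζ hζ1 hC
  have h10 : 0 < ζ1 := lt_of_lt_of_le hζ hζ1
  have h18 : ζ1 ≤ 1 / 8 := by
    have h1 : 8 * ζ1 ≤ max 8 (4 * CM) * ζ1 := mul_le_mul_of_nonneg_right (le_max_left _ _) h10.le
    linarith
  have h14 : CM * ζ1 ≤ 1 / 4 := by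
    have h1 : 4 * CM * ζ1 ≤ max 8 (4 * CM) * ζ1 := mul_le_mul_of_nonneg_right (le_max_right _ _) h10.le
    linarith
  obtain ⟨RM, hRM1, hM'⟩ := hM ch 0 ζ ζ1 0 hch hζ hζ1 (by linarith)
  refine ⟨max 16 (max CR RM), le_trans (by norm_num) (le_max_left _ _), ?_⟩
  intro R G Φ hR hOK Λ F T hdm v hv
  have hR16 : 16 ≤ R := (le_max_left _ _).trans hR
  have hRC : CR ≤ R := ((le_max_left _ _).trans (le_max_right _ _)).trans hR
  have hRM : RM ≤ R := ((le_max_right _ _).trans (le_max_right _ _)).trans hR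
  have hR1 : 1 ≤ R := by linarith
  obtain ⟨hWK, hfl⟩ := hN R G Φ hR16 hOK
  obtain ⟨bv, hbv⟩ := hv.bdd
  have hE := AFDD_env hADMD hAMVI hK hχ hOK.cls hWK ch ζ hv.meas hbv (CN + 1)
  obtain ⟨m1, m2, m3, m4, m5, m6, m7, m8⟩ := hABMR d Γ K k B G Φ 1 1 (Complex.I • 1) ch ζ1 R hOK (AFDD_Lag d) hch h10 h18 hR1
  have hRr : R ^ (-(1 / 2) + ζ1) ≤ 1 := Real.rpow_le_one_of_one_le_of_nonpos hR1 (by linarith)
  have hsup : ∀ p ∈ AFDD_W G r0 R, ∀ s : ℝ, |s| ≤ 2 → ∀ w : V d, (bt G Φ ch ζ1 R 1 (Complex.I • 1) p s w ≠ 0 ∨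
      Eb G Φ ch ζ1 R 1 (Complex.I • 1) p s w ≠ 0) → ‖w‖ ≤ CN + 1 := by
    intro p hp s hs w hw
    have h1 := m7 p s w hw
    have h2 := hfl p hp s hs
    have h3 : ‖w‖ ≤ ‖w - (Φ s p).1‖ + ‖(Φ s p).1‖ := by
      have := norm_add_le (w - (Φ s p).1) (Φ s p).1
      rwa [sub_add_cancel] at this
    linarith
  have m1' : ∀ p s, ContDiff ℝ 2 (bt G Φ ch ζ1 R 1 (Complex.I • 1) p s) := fun p s =>
    (m1 p s).of_le (by norm_cast)
  have s1 : ∀ p ∈ AFDD_W G r0 R, ∀ s : ℝ, |s| ≤ 2 → ∀ w : V d, bt G Φ ch ζ1 R 1 (Complex.I • 1) p s w ≠ 0 → ‖w‖ ≤ CN + 1 :=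
    fun p hp s hs w hw => hsup p hp s hs w (Or.inl hw)
  have s2 : ∀ p ∈ AFDD_W G r0 R, ∀ s : ℝ, |s| ≤ 2 → ∀ w : V d, Eb G Φ ch ζ1 R 1 (Complex.I • 1) p s w ≠ 0 → ‖w‖ ≤ CN + 1 :=
    fun p hp s hs w hw => hsup p hp s hs w (Or.inr hw)
  have reg : ∀ s : ℝ, |s| ≤ 2 → _ := fun s hs => AFDD_reg hE m1' m2 m3 m4 fun p hp w hw => s1 p hp s hs w hw
  have hI : ∀ s ∈ Icc (0 : ℝ) 1, |s| ≤ 1 := fun s hs => by
    rw [abs_of_nonneg hs.1]
    exact hs.2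
  have K1 : ∀ x : ℝ × V d, |x.1| < 2 → ContinuousAt (fun x : ℝ × V d => sF G r0 R (fP G Φ χ ch ζ ζ1 R x.1) v x.2) x :=
    fun x hx => AFDD_Kc hE m2 (H := fun s z => sF G r0 R (AFDD_f χ ch ζ R (bt G Φ ch ζ1 R 1 (Complex.I • 1)) s) v z)
      (fun r A hA s z hs hz => hE.loc _ m2 r A hA s z hz.le fun p hp w hw => s1 p hp s hs w hw) hx
  have K2 : ∀ x : ℝ × V d, |x.1| < 2 → ContinuousAt (fun x : ℝ × V d => lap G (sF G r0 R (fP G Φ χ ch ζ ζ1 R x.1) v) x.2) x :=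
    fun x hx => AFDD_Kc hE (h := fun p s => lap G (bt G Φ ch ζ1 R 1 (Complex.I • 1) p s)) m5
      (H := fun s z => lap G (sF G r0 R (AFDD_f χ ch ζ R (bt G Φ ch ζ1 R 1 (Complex.I • 1)) s) v) z)
      (fun r A hA s z hs hz => (reg s hs).2 r A hA z hz) hx
  have K3 : ∀ x : ℝ × V d, |x.1| < 2 → ContinuousAt (fun x : ℝ × V d => sF G r0 R (fE G Φ χ ch ζ ζ1 R x.1) v x.2) x :=
    fun x hx => AFDD_Kc hE m6 (H := fun s z => sF G r0 R (AFDD_f χ ch ζ R (Eb G Φ ch ζ1 R 1 (Complex.I • 1)) s) v z)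
      (fun r A hA s z hs hz => hE.loc _ m6 r A hA s z hz.le fun p hp w hw => s2 p hp s hs w hw) hx
  obtain ⟨b, hb⟩ := AFDD_bs hK G r0 R (CN + 1) χ ch ζ hdm hv
  refine ⟨b, ?_, ?_, ?_, ?_, ?_, ?_⟩
  · intro s hs
    obtain ⟨a1, a2, -⟩ := hM' R s G Φ hRM hOK (hI s hs)
    have hη : 0 < CM * ζ1 := mul_pos (by linarith) h10
    have hm : ∀ e : ℝ, 0 ≤ R ^ e := fun e => Real.rpow_nonneg (by linarith) e
    exact ⟨((hRD 0 (CM * ζ1) _ R s G Φ _ hRC hOK hη h14 (hm _) (hI s hs) a1).2.2 Λ F T hdm).1 v hv,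
      (reg s (by linarith [hI s hs])).1,
      ((hRD 0 (CM * ζ1) _ R s G Φ _ hRC hOK hη h14 (hm _) (hI s hs) a2).2.2 Λ F T hdm).1 v hv⟩
  · intro s hs z hz hne
    have hs2 : |s| ≤ 2 := by linarith [hI s hs]
    rcases hne with hne | hne
    · exact hb (fun p w => bt G Φ ch ζ1 R 1 (Complex.I • 1) p s w) (fun p hp w hw => s1 p hp s hs2 w hw) z hz hne
    · exact hb (fun p w => Eb G Φ ch ζ1 R 1 (Complex.I • 1) p s w) (fun p hp w hw => s2 p hp s hs2 w hw) z hz hne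
  · exact fun x hx => (K1 x (by linarith [hI x.1 hx.1])).continuousWithinAt
  · exact fun x hx => (K2 x (by linarith [hI x.1 hx.1])).continuousWithinAt
  · exact fun x hx => (K3 x (by linarith [hI x.1 hx.1])).continuousWithinAt
  · intro s hs z
    exact AFDD_time hE m1' m2 m3 m4 m5 m6 m8 s1 s2 (by linarith [hI s hs]) z

end

end Pool.Agent.VD
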