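import Pool.Agent.helper55.VD.SpecE0

/-!
# Project VD (MP_07c750_an), row EAM: all steps
-/

set_option autoImplicit false

open scoped ENNReal ComplexConjugate
open MeasureTheory Filter Set

namespace Pool.Agent.VDA

open Pool.Agent.VQ (PS KZ cmZ perZ)
open Pool.Agent.RPQ (IsOp)

noncomputable section

theorem EAM_mul {Γ : Type} [Group Γ] {Y : Type} [MeasurableSpace Y] [MulAction Γ Y] {u v : Y → ℂ} (hu : FB Γ u) (hv : FB Γ v) :
    FB Γ (fun y => u y * v y) := by
  obtain ⟨B, hB⟩ := hu.bdd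
  obtain ⟨B', hB'⟩ := hv.bdd
  refine ⟨hu.meas.mul hv.meas, ⟨B * B', fun y => ?_⟩, fun γ y => ?_⟩
  · rw [norm_mul]
    exact mul_le_mul (hB y) (hB' y) (norm_nonneg _) ((norm_nonneg _).trans (hB y))
  · show u (γ • y) * v (γ • y) = u y * v y
    rw [hu.inv, hv.inv]

theorem EAM_sub {Γ : Type} [Group Γ] {Y : Type} [MeasurableSpace Y] [MulAction Γ Y] {u v : Y → ℂ} (hu : FB Γ u) (hv : FB Γ v) :
    FB Γ (fun y => u y - v y) := by
  obtain ⟨B, hB⟩ := hu.bdd
  obtain ⟨B', hB'⟩ := hv.bdd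
  refine ⟨hu.meas.sub hv.meas, ⟨B + B', fun y => ?_⟩, fun γ y => ?_⟩
  · exact (norm_sub_le _ _).trans (add_le_add (hB y) (hB' y))
  · show u (γ • y) - v (γ • y) = u y - v y
    rw [hu.inv, hv.inv]

theorem EAM_add {Γ : Type} [Group Γ] {Y : Type} [MeasurableSpace Y] [MulAction Γ Y] {u v : Y → ℂ} (hu : FB Γ u) (hv : FB Γ v) :
    FB Γ (fun y => u y + v y) := by
  obtain ⟨B, hB⟩ := hu.bdd
  obtain ⟨B', hB'⟩ := hv.bdd
  refine ⟨hu.meas.add hv.meas, ⟨B + B', fun y => ?_⟩, fun γ y => ?_⟩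
  · exact (norm_add_le _ _).trans (add_le_add (hB y) (hB' y))
  · show u (γ • y) + v (γ • y) = u y + v y
    rw [hu.inv, hv.inv]

theorem EAM_exp {Γ : Type} [Group Γ] {Y : Type} [MeasurableSpace Y] [MulAction Γ Y] {θ : Y → ℝ} (h : FT Γ θ) :
    FB Γ (fun y => Complex.exp (((θ y : ℝ) : ℂ) * Complex.I)) := by
  refine ⟨Complex.measurable_exp.comp ((Complex.measurable_ofReal.comp h.meas).mul_const _), ⟨1, fun y => ?_⟩, fun γ y => ?_⟩
  · rw [Complex.norm_exp_ofReal_mul_I]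
  · show Complex.exp (((θ (γ • y) : ℝ) : ℂ) * Complex.I) = _
    rw [h.inv]

theorem EAM_dist (a b : ℝ) : ‖Complex.exp ((a : ℂ) * Complex.I) - Complex.exp ((b : ℂ) * Complex.I)‖ ≤ |a - b| := by
  have h1 : Complex.exp ((a : ℂ) * Complex.I) - Complex.exp ((b : ℂ) * Complex.I) =
      Complex.exp ((b : ℂ) * Complex.I) * (Complex.exp (Complex.I * ((a - b : ℝ) : ℂ)) - 1) := by
    rw [mul_sub, mul_one, ← Complex.exp_add]
    congr 2
    push_cast
    ring
  rw [h1, norm_mul, Complex.norm_exp_ofReal_mul_I, one_mul]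
  exact Real.norm_exp_I_mul_ofReal_sub_one_le

theorem EAM_sqrt (c N x : ℝ) (hc : 0 ≤ c) (h : x ≤ c ^ 2 * N) : Real.sqrt x ≤ c * Real.sqrt N := by
  refine (Real.sqrt_le_sqrt h).trans (le_of_eq ?_)
  rw [Real.sqrt_mul (sq_nonneg c), Real.sqrt_sq hc]

theorem EAM_proof (hEAO : EAO_stmt) (hEAC : EAC_stmt) : EAM_stmt := by
  intro Γ _ Y _ _ m D d hPS K L ε b w δ N η θ Φ n hK hL0 hL hw hδ hΦ hN hη hθ hstep hone hzero
  obtain ⟨hO1, hO2, hO3, hO4⟩ := hEAO Γ Y m D d hPS
  have hKL : ∀ k, KZ Γ d (L k) := by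
    intro k
    induction k with
    | zero => exact hL0
    | succ k ih =>
      rw [hL k]
      exact (hO2 K (L k) Φ hK.kz ih hΦ).1
  have hN0 : 0 ≤ N := (hO3 Φ hΦ).1.trans hN
  have hε := hK.e0
  have hb := hK.b0
  -- the phases
  have hP : ∀ k, FB Γ (fun y => Complex.exp (((θ k y : ℝ) : ℂ) * Complex.I)) := fun k => EAM_exp (hθ k)
  have hE : ∀ k, FB Γ (fun y => OY m (L k) Φ y - Complex.exp (((θ k y : ℝ) : ℂ) * Complex.I) * Φ y) := fun k =>
    EAM_sub (hO1 (L k) Φ (hKL k) hΦ).1 (EAM_mul (hP k) hΦ)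
  have key : ∀ k ≤ n, Real.sqrt (nY m D (fun y => OY m (L k) Φ y - Complex.exp (((θ k y : ℝ) : ℂ) * Complex.I) * Φ y)) ≤
      (k + 1) * (1 + ε) ^ k * (δ + w * b) * Real.sqrt N := by
    intro k
    induction k with
    | zero =>
      intro _
      have h1 := EAM_sqrt δ N _ hδ hzero
      have h2 : δ * Real.sqrt N ≤ (δ + w * b) * Real.sqrt N :=
        mul_le_mul_of_nonneg_right (by nlinarith [mul_nonneg hw hb]) (Real.sqrt_nonneg _)
      have h3 : (((0 : ℕ) : ℝ) + 1) * (1 + ε) ^ 0 * (δ + w * b) * Real.sqrt N = (δ + w * b) * Real.sqrt N := by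
        push_cast
        ring
      rw [h3]
      exact h1.trans h2
    | succ k ih =>
      intro hk
      have hk' : k < n := by omega
      have ih' := ih (by omega)
      have hH' : FT Γ (fun y => θ (k + 1) y - η y) := ⟨(hθ (k + 1)).meas.sub hη.meas, fun γ y => by
        show θ (k + 1) (γ • y) - η (γ • y) = θ (k + 1) y - η y
        rw [(hθ (k + 1)).inv, hη.inv]⟩
      have hH'B := EAM_exp hH'
      -- first term
      have t1 : nY m D (fun y => OY m K (fun x => Complex.exp (((θ k x : ℝ) : ℂ) * Complex.I) * Φ x) y -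
          Complex.exp ((((θ (k + 1) y - η y) : ℝ) : ℂ) * Complex.I) * OY m K Φ y) ≤ (w * b) ^ 2 * N := by
        refine (hEAC Γ Y m D d hPS K ε b w _ _ Φ hK hw (hP k) hH'B hΦ ?_).trans (mul_le_mul_of_nonneg_left hN (sq_nonneg _))
        intro y x hyx
        exact (EAM_dist _ _).trans (hstep k hk' y x hyx)
      have s1 := EAM_sqrt (w * b) N _ (mul_nonneg hw hb) t1
      -- second term
      have t2 : nY m D (fun y => Complex.exp ((((θ (k + 1) y - η y) : ℝ) : ℂ) * Complex.I) * (OY m K Φ y - Complex.exp (((η y : ℝ) : ℂ) * Complex.I) * Φ y)) ≤ δ ^ 2 * N := by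
        refine le_trans (le_of_eq ?_) hone
        unfold nY
        refine integral_congr_ae (Filter.Eventually.of_forall fun y => ?_)
        show ‖Complex.exp ((((θ (k + 1) y - η y) : ℝ) : ℂ) * Complex.I) * (OY m K Φ y - Complex.exp (((η y : ℝ) : ℂ) * Complex.I) * Φ y)‖ ^ 2 = _
        rw [norm_mul, Complex.norm_exp_ofReal_mul_I, one_mul]
      have s2 := EAM_sqrt δ N _ hδ t2
      -- third term
      have s3 := EAM_sqrt (1 + ε) _ _ (by linarith) (hK.con _ (hE k))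
      -- the sum
      have hKΦ := (hO1 K Φ hK.kz hΦ).1
      have hKP := (hO1 K _ hK.kz (EAM_mul (hP k) hΦ)).1
      have hKE := (hO1 K _ hK.kz (hE k)).1
      have hF1 := EAM_sub hKP (EAM_mul hH'B hKΦ)
      have hF2 := EAM_mul hH'B (EAM_sub hKΦ (EAM_mul (EAM_exp hη) hΦ))
      have hsum : (fun y => OY m (L (k + 1)) Φ y - Complex.exp (((θ (k + 1) y : ℝ) : ℂ) * Complex.I) * Φ y) = fun y =>
          ((OY m K (fun x => Complex.exp (((θ k x : ℝ) : ℂ) * Complex.I) * Φ x) y -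
          Complex.exp ((((θ (k + 1) y - η y) : ℝ) : ℂ) * Complex.I) * OY m K Φ y) +
          Complex.exp ((((θ (k + 1) y - η y) : ℝ) : ℂ) * Complex.I) * (OY m K Φ y - Complex.exp (((η y : ℝ) : ℂ) * Complex.I) * Φ y)) +
          OY m K (fun x => OY m (L k) Φ x - Complex.exp (((θ k x : ℝ) : ℂ) * Complex.I) * Φ x) y := by
        funext y
        have e1 : OY m (L (k + 1)) Φ y = OY m K (OY m (L k) Φ) y := by
          rw [hL k]
          exact (hO2 K (L k) Φ hK.kz (hKL k) hΦ).2 y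
        have e2 : OY m K (OY m (L k) Φ) y = OY m K (fun x => Complex.exp (((θ k x : ℝ) : ℂ) * Complex.I) * Φ x) y +
            OY m K (fun x => OY m (L k) Φ x - Complex.exp (((θ k x : ℝ) : ℂ) * Complex.I) * Φ x) y := by
          have i1 := (hO1 K _ hK.kz (EAM_mul (hP k) hΦ)).2.1 y
          have i2 := (hO1 K _ hK.kz (hE k)).2.1 y
          show ∫ x, K y x * OY m (L k) Φ x ∂m = (∫ x, K y x * (Complex.exp (((θ k x : ℝ) : ℂ) * Complex.I) * Φ x) ∂m) +
            ∫ x, K y x * (OY m (L k) Φ x - Complex.exp (((θ k x : ℝ) : ℂ) * Complex.I) * Φ x) ∂m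
          rw [← integral_add i1 i2]
          refine integral_congr_ae (Filter.Eventually.of_forall fun x => ?_)
          show K y x * OY m (L k) Φ x = K y x * (Complex.exp (((θ k x : ℝ) : ℂ) * Complex.I) * Φ x) +
            K y x * (OY m (L k) Φ x - Complex.exp (((θ k x : ℝ) : ℂ) * Complex.I) * Φ x)
          ring
        have e3 : Complex.exp ((((θ (k + 1) y - η y) : ℝ) : ℂ) * Complex.I) * Complex.exp (((η y : ℝ) : ℂ) * Complex.I) = Complex.exp (((θ (k + 1) y : ℝ) : ℂ) * Complex.I) := by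
          rw [← Complex.exp_add]
          congr 1
          push_cast
          ring
        rw [e1, e2, ← e3]
        ring
      have m1 := hO4 _ _ (EAM_add hF1 hF2) hKE
      have m2 := hO4 _ _ hF1 hF2
      rw [hsum]
      refine m1.trans ?_
      have h4 : (1 : ℝ) ≤ (1 + ε) ^ (k + 1) := one_le_pow₀ (by linarith)
      have h5 : 0 ≤ (δ + w * b) * Real.sqrt N := mul_nonneg (add_nonneg hδ (mul_nonneg hw hb)) (Real.sqrt_nonneg _)
      have h6 : (1 + ε) * ((k + 1) * (1 + ε) ^ k * (δ + w * b) * Real.sqrt N) = (k + 1) * (1 + ε) ^ (k + 1) * ((δ + w * b) * Real.sqrt N) := by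
        rw [pow_succ]
        ring
      have h7 := mul_le_mul_of_nonneg_left ih' (show 0 ≤ 1 + ε by linarith)
      rw [h6] at h7
      have h8 : (δ + w * b) * Real.sqrt N ≤ (1 + ε) ^ (k + 1) * ((δ + w * b) * Real.sqrt N) := le_mul_of_one_le_left h5 h4
      have h9 : (((k + 1 : ℕ) : ℝ) + 1) * (1 + ε) ^ (k + 1) * (δ + w * b) * Real.sqrt N =
          (k + 1) * (1 + ε) ^ (k + 1) * ((δ + w * b) * Real.sqrt N) + (1 + ε) ^ (k + 1) * ((δ + w * b) * Real.sqrt N) := by
        push_cast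
        ring
      rw [h9]
      linarith
  intro k hk
  refine ⟨hKL k, ?_⟩
  have h1 := key k hk
  have h0 : 0 ≤ nY m D (fun y => OY m (L k) Φ y - Complex.exp (((θ k y : ℝ) : ℂ) * Complex.I) * Φ y) := (hO3 _ (hE k)).1
  have h2 := pow_le_pow_left₀ (Real.sqrt_nonneg _) h1 2
  rw [Real.sq_sqrt h0, mul_pow, Real.sq_sqrt hN0] at h2
  exact h2

end

end Pool.Agent.VDA
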