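import Pool.Agent.helper55.VD.SpecE1

/-!
# Project VD (MP_07c750_an), row EHL: conformal change of the Laplacian
-/

set_option autoImplicit false

open scoped ContDiff Topology InnerProductSpace ComplexConjugate
open MeasureTheory Filter Set

namespace Pool.Agent.VD

noncomputable section

/-- expansion in the standard basis -/
theorem EHL_exp {d : ℕ} (L : V d →L[ℝ] ℂ) (v : V d) : L v = ∑ j : Fin d, (((v j : ℝ)) : ℂ) * L (EuclideanSpace.single j 1) := by
  have h1 : v = ∑ j : Fin d, v j • EuclideanSpace.single j (1 : ℝ) := by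
    have h2 := (EuclideanSpace.basisFun (Fin d) ℝ).sum_repr v
    simp only [EuclideanSpace.basisFun_repr, EuclideanSpace.basisFun_apply] at h2
    exact h2.symm
  conv_lhs => rw [h1]
  rw [map_sum]
  refine Finset.sum_congr rfl fun j _ => ?_
  rw [map_smul, Complex.real_smul]

/-- the symmetry of the mixed term -/
theorem EHL_symm {d : ℕ} (S : V d →L[ℝ] V d) (hS : ∀ u v, ⟪S u, v⟫_ℝ = ⟪u, S v⟫_ℝ) (L M : V d →L[ℝ] ℂ) :
    ∑ i : Fin d, L (EuclideanSpace.single i 1) * M (S (EuclideanSpace.single i 1)) = ∑ i : Fin d, M (EuclideanSpace.single i 1) * L (S (EuclideanSpace.single i 1)) := by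
  have h1 : ∀ i j : Fin d, (S (EuclideanSpace.single i 1)) j = (S (EuclideanSpace.single j 1)) i := by
    intro i j
    have h2 := hS (EuclideanSpace.single i 1) (EuclideanSpace.single j 1)
    rw [EuclideanSpace.inner_single_left, EuclideanSpace.inner_single_right] at h2
    simpa using h2
  have h2 : ∀ (L M : V d →L[ℝ] ℂ), ∑ i : Fin d, L (EuclideanSpace.single i 1) * M (S (EuclideanSpace.single i 1)) =
      ∑ i : Fin d, ∑ j : Fin d, (((S (EuclideanSpace.single i 1)) j : ℝ) : ℂ) * (L (EuclideanSpace.single i 1) * M (EuclideanSpace.single j 1)) := by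
    intro L M
    refine Finset.sum_congr rfl fun i _ => ?_
    rw [EHL_exp M, Finset.mul_sum]
    refine Finset.sum_congr rfl fun j _ => ?_
    ring
  rw [h2, h2, Finset.sum_comm]
  refine Finset.sum_congr rfl fun i _ => Finset.sum_congr rfl fun j _ => ?_
  rw [h1 j i]
  ring

theorem EHL_cast {d : ℕ} (ρ : V d → ℝ) (h : ContDiff ℝ ∞ ρ) : ContDiff ℝ ∞ (fun y => ((ρ y : ℝ) : ℂ)) :=
  Complex.ofRealCLM.contDiff.comp h

theorem EHL_diff {d : ℕ} (ρ : V d → ℝ) (B : V d → V d →L[ℝ] V d) (φ : V d → ℂ) (hρ : ContDiff ℝ ∞ ρ) (hB : ContDiff ℝ ∞ B) (hφ : ContDiff ℝ 2 φ) (u : V d) :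
    Differentiable ℝ (fun y => ((ρ y : ℝ) : ℂ) * fderiv ℝ φ y (B y u)) := by
  have h1 : ContDiff ℝ 1 (fderiv ℝ φ) := hφ.fderiv_right (by norm_num)
  have h2 : ContDiff ℝ 1 (fun y => B y u) := (hB.of_le (by exact_mod_cast le_top)).clm_apply contDiff_const
  have h3 : ContDiff ℝ 1 (fun y => fderiv ℝ φ y (B y u)) := h1.clm_apply h2
  have h4 : ContDiff ℝ 1 (fun y => ((ρ y : ℝ) : ℂ)) := (EHL_cast ρ hρ).of_le (by exact_mod_cast le_top)
  exact (h4.mul h3).differentiable (by norm_num)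

/-- the product rule, applied to a vector -/
theorem EHL_mul {d : ℕ} (a b : V d → ℂ) (x u : V d) (ha : DifferentiableAt ℝ a x) (hb : DifferentiableAt ℝ b x) :
    fderiv ℝ (fun y => a y * b y) x u = a x * fderiv ℝ b x u + b x * fderiv ℝ a x u := by
  rw [fderiv_fun_mul ha hb]
  rfl

theorem EHL_add {d : ℕ} (a b : V d → ℂ) (x u : V d) (ha : DifferentiableAt ℝ a x) (hb : DifferentiableAt ℝ b x) :
    fderiv ℝ (fun y => a y + b y) x u = fderiv ℝ a x u + fderiv ℝ b x u := by
  rw [fderiv_fun_add ha hb]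
  rfl

theorem EHL_proof (hEHD : EHD_stmt) : EHL_stmt := by
  intro d G f φ hG hf hφ x
  obtain ⟨hpos, hρ, hB, -, hsym, -, hconf⟩ := hEHD d G hG
  obtain ⟨-, hG'⟩ := hconf f hf
  obtain ⟨W, hWdef⟩ : ∃ W : V d → ℂ, W = fun y => ((Real.exp (((d : ℝ) - 2) / 4 * f y) : ℝ) : ℂ) := ⟨_, rfl⟩
  have hWy : ∀ y, W y = ((Real.exp (((d : ℝ) - 2) / 4 * f y) : ℝ) : ℂ) := fun y => by rw [hWdef]
  have hWc : ContDiff ℝ ∞ W := by
    rw [hWdef]
    exact EHL_cast _ (Real.contDiff_exp.comp (contDiff_const.mul hf))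
  have hW2 : ContDiff ℝ 2 W := contDiff_infty.1 hWc 2
  have hWd : Differentiable ℝ W := hW2.differentiable (by norm_num)
  have hφd : Differentiable ℝ φ := hφ.differentiable (by norm_num)
  have hA := fun i : Fin d => EHL_diff (dens G) (fun y => (G y).inverse) φ hρ hB hφ (EuclideanSpace.single i 1)
  have hC := fun i : Fin d => EHL_diff (dens G) (fun y => (G y).inverse) W hρ hB hW2 (EuclideanSpace.single i 1)
  have hlw : (fun y => ((Real.exp (((d : ℝ) - 2) / 4 * f y) : ℝ) : ℂ)) = W := hWdef.symm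
  have hlp : (fun y => ((Real.exp (((d : ℝ) - 2) / 4 * f y) : ℝ) : ℂ) * φ y) = fun y => W y * φ y := by
    funext y
    rw [hWy]
  rw [hlw, hlp]
  obtain ⟨A, hAd⟩ : ∃ A : Fin d → V d → ℂ, A = fun i y => ((dens G y : ℝ) : ℂ) * fderiv ℝ φ y ((G y).inverse (EuclideanSpace.single i 1)) := ⟨_, rfl⟩
  obtain ⟨C, hCd⟩ : ∃ C : Fin d → V d → ℂ, C = fun i y => ((dens G y : ℝ) : ℂ) * fderiv ℝ W y ((G y).inverse (EuclideanSpace.single i 1)) := ⟨_, rfl⟩
  have hAi : ∀ i, Differentiable ℝ (A i) := by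
    intro i
    rw [hAd]
    exact hA i
  have hCi : ∀ i, Differentiable ℝ (C i) := by
    intro i
    rw [hCd]
    exact hC i
  -- the left hand side
  have e1 : lap G (fun y => W y * φ y) x = ((dens G x)⁻¹ : ℝ) * ∑ i : Fin d,
      (W x * fderiv ℝ (A i) x (EuclideanSpace.single i 1) + A i x * fderiv ℝ W x (EuclideanSpace.single i 1) +
        (φ x * fderiv ℝ (C i) x (EuclideanSpace.single i 1) + C i x * fderiv ℝ φ x (EuclideanSpace.single i 1))) := by
    unfold lap
    congr 1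
    refine Finset.sum_congr rfl fun i _ => ?_
    have h1 : (fun y => ((dens G y : ℝ) : ℂ) * fderiv ℝ (fun z => W z * φ z) y ((G y).inverse (EuclideanSpace.single i 1))) =
        fun y => W y * A i y + φ y * C i y := by
      funext y
      rw [EHL_mul W φ y _ (hWd y) (hφd y), hAd, hCd]
      ring
    rw [h1, EHL_add (fun y => W y * A i y) (fun y => φ y * C i y) x _ ((hWd x).mul (hAi i x)) ((hφd x).mul (hCi i x)),
      EHL_mul W (A i) x _ (hWd x) (hAi i x), EHL_mul φ (C i) x _ (hφd x) (hCi i x)]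
  -- the Laplacian of the conformal metric
  have e2 : lap (fun y => Real.exp (f y) • G y) φ x = (((Real.exp ((d : ℝ) / 2 * f x))⁻¹ : ℝ) : ℂ) * (((dens G x)⁻¹ : ℝ) * ∑ i : Fin d,
      (W x * W x * fderiv ℝ (A i) x (EuclideanSpace.single i 1) + A i x * (W x * fderiv ℝ W x (EuclideanSpace.single i 1) + W x * fderiv ℝ W x (EuclideanSpace.single i 1)))) := by
    unfold lap
    rw [(hG' x).1, mul_inv, Complex.ofReal_mul, mul_assoc]
    congr 2
    refine Finset.sum_congr rfl fun i _ => ?_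
    have h1 : (fun y => ((dens (fun y => Real.exp (f y) • G y) y : ℝ) : ℂ) * fderiv ℝ φ y ((Real.exp (f y) • G y).inverse (EuclideanSpace.single i 1))) =
        fun y => (W y * W y) * A i y := by
      funext y
      rw [(hG' y).1, (hG' y).2, _root_.smul_apply, map_smul, Complex.real_smul, hAd, hWy]
      have h2 : Real.exp (((d : ℝ) - 2) / 4 * f y) * Real.exp (((d : ℝ) - 2) / 4 * f y) = Real.exp ((d : ℝ) / 2 * f y) * Real.exp (-(f y)) := by
        rw [← Real.exp_add, ← Real.exp_add]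
        congr 1
        ring
      rw [← Complex.ofReal_mul, h2]
      push_cast
      ring
    rw [h1, EHL_mul (fun y => W y * W y) (A i) x _ ((hWd x).mul (hWd x)) (hAi i x), EHL_mul W W x _ (hWd x) (hWd x)]
  have e3 : lap G W x = ((dens G x)⁻¹ : ℝ) * ∑ i : Fin d, fderiv ℝ (C i) x (EuclideanSpace.single i 1) := by
    unfold lap
    rw [hCd]
  -- the mixed terms
  have e4 : ∑ i : Fin d, C i x * fderiv ℝ φ x (EuclideanSpace.single i 1) = ∑ i : Fin d, A i x * fderiv ℝ W x (EuclideanSpace.single i 1) := by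
    have h1 := EHL_symm ((G x).inverse) (fun u v => hsym x u v) (fderiv ℝ φ x) (fderiv ℝ W x)
    have h2 := congrArg (fun z : ℂ => ((dens G x : ℝ) : ℂ) * z) h1
    simp only [Finset.mul_sum] at h2
    rw [hAd, hCd]
    refine Eq.trans ?_ (h2.trans ?_)
    · refine Finset.sum_congr rfl fun i _ => ?_
      ring
    · refine Finset.sum_congr rfl fun i _ => ?_
      ring
  -- the exponents
  have e5 : ((Real.exp (((d : ℝ) - 2) / 4 * f x + f x) : ℝ) : ℂ) * (((Real.exp ((d : ℝ) / 2 * f x))⁻¹ : ℝ) : ℂ) * W x = 1 := by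
    rw [hWy, ← Complex.ofReal_mul, ← Complex.ofReal_mul, ← Real.exp_neg, ← Real.exp_add, ← Real.exp_add]
    have : ((d : ℝ) - 2) / 4 * f x + f x + -((d : ℝ) / 2 * f x) + ((d : ℝ) - 2) / 4 * f x = 0 := by ring
    rw [this, Real.exp_zero, Complex.ofReal_one]
  rw [e1, e2, e3]
  have s1 : ∑ i : Fin d,
      (W x * fderiv ℝ (A i) x (EuclideanSpace.single i 1) + A i x * fderiv ℝ W x (EuclideanSpace.single i 1) +
        (φ x * fderiv ℝ (C i) x (EuclideanSpace.single i 1) + C i x * fderiv ℝ φ x (EuclideanSpace.single i 1))) =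
      W x * ∑ i : Fin d, fderiv ℝ (A i) x (EuclideanSpace.single i 1) + 2 * ∑ i : Fin d, A i x * fderiv ℝ W x (EuclideanSpace.single i 1) +
        φ x * ∑ i : Fin d, fderiv ℝ (C i) x (EuclideanSpace.single i 1) := by
    rw [Finset.sum_add_distrib, Finset.sum_add_distrib, Finset.sum_add_distrib, e4, ← Finset.mul_sum, ← Finset.mul_sum]
    ring
  have s2 : ∑ i : Fin d,
      (W x * W x * fderiv ℝ (A i) x (EuclideanSpace.single i 1) + A i x * (W x * fderiv ℝ W x (EuclideanSpace.single i 1) + W x * fderiv ℝ W x (EuclideanSpace.single i 1))) =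
      W x * (W x * ∑ i : Fin d, fderiv ℝ (A i) x (EuclideanSpace.single i 1) + 2 * ∑ i : Fin d, A i x * fderiv ℝ W x (EuclideanSpace.single i 1)) := by
    rw [mul_add, Finset.mul_sum, Finset.mul_sum, Finset.mul_sum, Finset.mul_sum, ← Finset.sum_add_distrib]
    refine Finset.sum_congr rfl fun i _ => ?_
    ring
  rw [s1, s2]
  linear_combination (-(((dens G x)⁻¹ : ℝ) : ℂ) * (W x * ∑ i : Fin d, fderiv ℝ (A i) x (EuclideanSpace.single i 1) + 2 * ∑ i : Fin d, A i x * fderiv ℝ W x (EuclideanSpace.single i 1))) * e5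

end

end Pool.Agent.VD
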