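import Pool.Agent.helper93.VD.SpecB1

/-!
# Project VD (MP_07c750_an), row VDC: volume of the vertical disc
-/

set_option autoImplicit false

open scoped InnerProductSpace ContDiff Topology
open MeasureTheory Set Filter

namespace Pool.Agent.VD

noncomputable section

theorem VDC_it0 {m : ℕ} (F : ℕ → Z m → Z m) (h : ∀ i, F i 0 = 0) : ∀ i, it F i 0 = 0 := by
  intro i
  induction i with
  | zero => rfl
  | succ i ih =>
    show F i (it F i 0) = 0
    rw [ih, h]

/-- the set of the vertical disc is closed -/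
theorem VDC_closed (hNDE : NDE_stmt) {m : ℕ} {c C e0 : ℝ} (h0 : 0 < e0) (F : ℕ → Z m → Z m) (hF : ∀ i, HYP c C e0 (F i)) (e : ℝ) (he : e < e0) (x : W m) (n : ℕ) :
    IsClosed {w : W m | ∀ i ≤ n, ‖it F i (x, w)‖ ≤ e} := by
  have hcx : Continuous (fun w : W m => ((x, w) : Z m)) := by fun_prop
  induction n with
  | zero =>
    have h1 : {w : W m | ∀ i ≤ 0, ‖it F i (x, w)‖ ≤ e} = {w : W m | ‖((x, w) : Z m)‖ ≤ e} := by
      ext w
      constructor
      · intro h
        exact h 0 le_rfl
      · intro h i hi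
        have : i = 0 := by omega
        subst this
        exact h
    rw [h1]
    exact isClosed_le hcx.norm continuous_const
  | succ k ih =>
    have h1 : {w : W m | ∀ i ≤ k + 1, ‖it F i (x, w)‖ ≤ e} = {w : W m | ∀ i ≤ k, ‖it F i (x, w)‖ ≤ e} ∩ (fun w : W m => it F (k + 1) (x, w)) ⁻¹' Metric.closedBall 0 e := by
      ext w
      constructor
      · intro h
        refine ⟨fun i hi => h i (by omega), ?_⟩
        rw [mem_preimage, mem_closedBall_zero_iff]
        exact h (k + 1) le_rfl
      · rintro ⟨h2, h3⟩ i hi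
        rw [mem_preimage, mem_closedBall_zero_iff] at h3
        rcases Nat.lt_or_ge i (k + 1) with h4 | h4
        · exact h2 i (by omega)
        · have : i = k + 1 := by omega
          subst this
          exact h3
    rw [h1]
    refine ContinuousOn.preimage_isClosed_of_isClosed ?_ ih Metric.isClosed_closedBall
    intro w hw
    obtain ⟨L, -, -, hL, -⟩ := hNDE m c C e0 F (k + 1) (x, w) h0 hF (fun i hi => (hw i (by omega)).trans_lt he)
    have h2 : ContinuousAt (it F (k + 1)) ((fun w : W m => ((x, w) : Z m)) w) := hL.hasFDerivAt.continuousAt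
    exact (ContinuousAt.comp (g := it F (k + 1)) (f := fun w : W m => ((x, w) : Z m)) h2 hcx.continuousAt).continuousWithinAt

/-- the derivative -/
theorem VDC_der {m : ℕ} (G : Z m → Z m) (T : Z m →L[ℝ] Z m) (x w : W m) (h : HasFDerivAt G T (x, w)) :
    HasFDerivAt (fun w : W m => (G (x, w)).1) (Bk T) w := by
  have h1 : HasFDerivAt (fun w : W m => ((x, w) : Z m)) (ContinuousLinearMap.inr ℝ (W m) (W m)) w := hasFDerivAt_prodMk_right x w
  have h2 : HasFDerivAt (fun w : W m => G (x, w)) (T.comp (ContinuousLinearMap.inr ℝ (W m) (W m))) w :=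
    HasFDerivAt.comp (g := G) (f := fun w : W m => ((x, w) : Z m)) w h h1
  exact (ContinuousLinearMap.fst ℝ (W m) (W m)).hasFDerivAt.comp w h2

theorem VDC_proof (hNBD : NBD_stmt) (hNDE : NDE_stmt) (hNDI : NDI_stmt) (hNSU : NSU_stmt) : VDC_stmt := by
  intro m c C e0 hc hC h0
  obtain ⟨ea, μ, Ka, hea, hea2, hμ, hKa, hA⟩ := hNBD m c C e0 hc hC h0
  obtain ⟨eb, Kb, heb, heb2, hKb, hB⟩ := hNDI m c C e0 hc hC h0
  obtain ⟨ec, e2, Kc, hec, hec2, he2, hKc, hS⟩ := hNSU m c C e0 hc hC h0
  -- the unit ball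
  set v : ℝ := (volume (Metric.ball (0 : W m) 1)).toReal with hv
  have hvtop : volume (Metric.ball (0 : W m) 1) ≠ ⊤ := measure_ball_lt_top.ne
  have hv0 : 0 < v := ENNReal.toReal_pos (Metric.measure_ball_pos volume 0 one_pos).ne' hvtop
  have hvv : volume (Metric.ball (0 : W m) 1) = ENNReal.ofReal v := (ENNReal.ofReal_toReal hvtop).symm
  have hball : ∀ r : ℝ, 0 ≤ r → volume (Metric.closedBall (0 : W m) r) = ENNReal.ofReal (r ^ m * v) := by
    intro r hr
    rw [Measure.addHaar_closedBall volume 0 hr, hvv, ← ENNReal.ofReal_mul (by positivity), finrank_euclideanSpace_fin]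
  set K' := 2 * Kc with hK'
  have hK'0 : 0 < K' := by linarith
  obtain ⟨K, hKdef⟩ : ∃ K : ℝ, K = max (max 1 (Kb * v)) (max K' (Kb * K' ^ m / v)) := ⟨_, rfl⟩
  have hK1 : 1 ≤ K := by rw [hKdef]; exact (le_max_left _ _).trans (le_max_left _ _)
  have hK2 : Kb * v ≤ K := by rw [hKdef]; exact (le_max_right _ _).trans (le_max_left _ _)
  have hK3 : K' ≤ K := by rw [hKdef]; exact (le_max_left _ _).trans (le_max_right _ _)
  have hK4 : Kb * K' ^ m / v ≤ K := by rw [hKdef]; exact (le_max_right _ _).trans (le_max_right _ _)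
  obtain ⟨e1, he1def⟩ : ∃ e1 : ℝ, e1 = min ea (min eb e2) := ⟨_, rfl⟩
  have h1a : e1 ≤ ea := by rw [he1def]; exact min_le_left _ _
  have h1b : e1 ≤ eb := by rw [he1def]; exact (min_le_right _ _).trans (min_le_left _ _)
  have h1c : e1 ≤ e2 := by rw [he1def]; exact (min_le_right _ _).trans (min_le_right _ _)
  have h10 : 0 < e1 := by rw [he1def]; exact lt_min hea (lt_min heb he2)
  refine ⟨e1, K, h10, h1a.trans hea2, hK1, ?_⟩
  intro F n e x hF hF0 hn he hee hx
  have hKb0 : 0 < Kb := by linarith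
  have hKc0 : 0 < Kc := by linarith
  have hK0 : 0 < K := by linarith
  have hlt : e < e0 := by linarith
  set S : Set (W m) := {w : W m | ∀ i ≤ n, ‖it F i (x, w)‖ ≤ e} with hSdef
  have hSm : MeasurableSet S := (VDC_closed hNDE h0 F hF e hlt x n).measurableSet
  set D := dB (fderiv ℝ (it F n) 0) with hD
  have hz : ∀ i, it F i (0 : Z m) = 0 := VDC_it0 F hF0
  -- derivatives
  have hder : ∀ w ∈ S, HasFDerivWithinAt (fun w : W m => (it F n (x, w)).1) (Bk (fderiv ℝ (it F n) (x, w))) S w := by
    intro w hw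
    obtain ⟨L, -, -, hL, hL2⟩ := hNDE m c C e0 F n (x, w) h0 hF (fun i hi => (hw i hi.le).trans_lt hlt)
    refine (VDC_der (it F n) _ x w ?_).hasFDerivWithinAt
    rw [hL2]
    exact hL.hasFDerivAt
  have hinj : InjOn (fun w : W m => (it F n (x, w)).1) S := by
    intro w hw w' hw' hww
    have h1 : POrb F n ea 0 (fun i => it F i (x, w)) := ⟨fun i _ => by
      show ‖F i (it F i (x, w)) - F i (it F i (x, w))‖ ≤ 0
      rw [sub_self, norm_zero], fun i hi => (hw i hi).trans (hee.trans h1a)⟩
    have h2 : POrb F n ea 0 (fun i => it F i (x, w')) := ⟨fun i _ => by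
      show ‖F i (it F i (x, w')) - F i (it F i (x, w'))‖ ≤ 0
      rw [sub_self, norm_zero], fun i hi => (hw' i hi).trans (hee.trans h1a)⟩
    have h3 := hA F n 0 _ _ hF hn le_rfl h1 h2 0 (Nat.zero_le _)
    have h4 : (it F 0 (x, w) - it F 0 (x, w')).1 = 0 := sub_self x
    have h5 : (it F n (x, w) - it F n (x, w')).1 = 0 := by
      have : (it F n (x, w)).1 = (it F n (x, w')).1 := hww
      rw [Prod.fst_sub, this, sub_self]
    rw [h4, h5, norm_zero, mul_zero, mul_zero, add_zero, add_zero, mul_zero] at h3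
    have h6 : it F 0 (x, w) - it F 0 (x, w') = 0 := norm_le_zero_iff.1 h3
    have h7 : ((x, w) : Z m) = (x, w') := sub_eq_zero.1 h6
    exact (Prod.mk.inj h7).2
  have himg := lintegral_abs_det_fderiv_eq_addHaar_image volume hSm hder hinj
  -- distortion
  have hdist : ∀ w ∈ S, D ≤ Kb * |(Bk (fderiv ℝ (it F n) (x, w))).det| ∧ |(Bk (fderiv ℝ (it F n) (x, w))).det| ≤ Kb * D := by
    intro w hw
    have h1 : ∀ i ≤ n, ‖it F i (x, w)‖ ≤ eb := fun i hi => (hw i hi).trans (hee.trans h1b)
    have h2 : ∀ i ≤ n, ‖it F i (0 : Z m)‖ ≤ eb := fun i _ => by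
      rw [hz, norm_zero]
      exact heb.le
    exact ⟨(hB F n 0 (x, w) hF hn h2 h1).2, (hB F n (x, w) 0 hF hn h1 h2).2⟩
  have hD0 : 0 ≤ D := abs_nonneg _
  constructor
  · -- upper bound
    have h1 : ENNReal.ofReal D * volume S ≤ ENNReal.ofReal Kb * volume ((fun w : W m => (it F n (x, w)).1) '' S) := by
      rw [← himg, ← lintegral_const_mul' _ _ ENNReal.ofReal_ne_top, ← setLIntegral_const]
      refine setLIntegral_mono' hSm fun w hw => ?_
      rw [← ENNReal.ofReal_mul hKb0.le]
      exact ENNReal.ofReal_le_ofReal (hdist w hw).1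
    have h2 : (fun w : W m => (it F n (x, w)).1) '' S ⊆ Metric.closedBall 0 e := by
      rintro y ⟨w, hw, rfl⟩
      rw [mem_closedBall_zero_iff]
      exact (norm_fst_le _).trans (hw n le_rfl)
    refine h1.trans ((mul_le_mul_right (measure_mono h2) _).trans ?_)
    rw [hball e he.le, ← ENNReal.ofReal_mul hKb0.le]
    refine ENNReal.ofReal_le_ofReal ?_
    have h3 : 0 ≤ e ^ m := by positivity
    nlinarith [mul_le_mul_of_nonneg_left hK2 h3]
  · intro hKx
    -- lower bound
    have h1 : volume ((fun w : W m => (it F n (x, w)).1) '' S) ≤ ENNReal.ofReal Kb * (ENNReal.ofReal D * volume S) := by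
      rw [← himg, ← mul_assoc, ← ENNReal.ofReal_mul hKb0.le, ← setLIntegral_const]
      refine setLIntegral_mono' hSm fun w hw => ?_
      exact ENNReal.ofReal_le_ofReal (hdist w hw).2
    have h2 : Metric.closedBall (0 : W m) (e / K') ⊆ (fun w : W m => (it F n (x, w)).1) '' S := by
      intro y hy
      rw [mem_closedBall_zero_iff] at hy
      have hxK : ‖x‖ ≤ e / K' := by
        rw [le_div_iff₀ hK'0]
        have := mul_le_mul_of_nonneg_right hK3 (norm_nonneg x)
        linarith
      have hK'1 : 1 ≤ K' := by linarith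
      have hle : e / K' ≤ e := div_le_self he.le hK'1
      obtain ⟨a, ha1, ha2, ha3⟩ := hS F n hF hF0 hn x y (by linarith) (by linarith)
      refine ⟨a.2, ?_, ?_⟩
      · intro i hi
        have h3 : ((x, a.2) : Z m) = a := by rw [← ha1]
        rw [h3]
        refine (ha3 i hi).1.trans ?_
        have h4 : ‖x‖ + ‖y‖ ≤ 2 * (e / K') := by linarith
        have h5 := mul_le_mul_of_nonneg_left h4 hKc0.le
        have h6 : Kc * (2 * (e / K')) = e := by
          rw [hK']
          field_simp
        linarith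
      · show (it F n (x, a.2)).1 = y
        have h3 : ((x, a.2) : Z m) = a := by rw [← ha1]
        rw [h3, ha2]
    have h3 := (measure_mono h2).trans h1
    rw [hball _ (by positivity)] at h3
    -- divide by `Kb`
    have h4 : ENNReal.ofReal ((e / K') ^ m * v / Kb) ≤ ENNReal.ofReal D * volume S := by
      rw [ENNReal.ofReal_div_of_pos hKb0]
      refine ENNReal.div_le_of_le_mul' h3
    refine le_trans (ENNReal.ofReal_le_ofReal ?_) h4
    have h5 : (e / K') ^ m * v / Kb = e ^ m * (v / (Kb * K' ^ m)) := by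
      rw [div_pow]
      field_simp
    rw [h5, div_eq_mul_inv]
    refine mul_le_mul_of_nonneg_left ?_ (by positivity)
    rw [inv_le_comm₀ hK0 (by positivity), inv_div]
    exact hK4

end

end Pool.Agent.VD
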